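import Pool.Agent.helper43.T5.RE1
import Pool.Agent.helper71.T5.RE2
import Pool.Agent.helper18.T5.DM
import Pool.Agent.helper52.T5.PC4
import Pool.Agent.helper22.T5.SG4
import Pool.Agent.helper39.T5.RDC
import Pool.Agent.helper48.T5.DC4
import Pool.Agent.helper72.T5.NS4
import Pool.Agent.helper11.T5.SS
import Pool.Agent.helper20.T5.NEAR
import Pool.Agent.helper29.T5.WEY
import Pool.Agent.helper75.T5.FUP
import Pool.Agent.helper11.T5.TR
import Pool.Agent.helper92.T5.SZ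
import Pool.Agent.helper11.T5.SWP
import Pool.Agent.helper8.T5.CZ
import Pool.Agent.helper59.T5.DYB
import Pool.Agent.helper59.T5.CBR
import Pool.Agent.helper8.T5.AKR
import Pool.Agent.helper97.T5.ARC
import Pool.Agent.helper59.T5.FIB2
import Pool.Agent.helper59.T5.BLU
import Pool.Agent.helper51.T5.BLE
import Pool.Agent.helper11.T5.NUMC
import Pool.Agent.helper11.T5.NUMT
import Pool.Agent.helper14.T5.CPS
import Pool.Agent.helper14.T5.EQP
import Pool.Agent.helper2.T5.EQE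
import Pool.Agent.helper65.T5.EQB1
import Pool.Agent.helper65.T5.EQB2
import Pool.Agent.helper14.T5.EQD
import Pool.Agent.helper87.T5.RelSum
import Pool.Agent.helper57.T5.TWA
import Pool.Agent.helper24.T5.TWB
import Pool.Agent.helper72.T5.TWC
import Pool.Agent.helper20.T5.TWD
import Pool.Agent.helper1.T5.BXA
import Pool.Agent.helper1.T5.BXB
import Pool.Agent.helper18.T5.BCA
import Pool.Agent.helper70.T5.BCS
import Pool.Agent.helper70.T5.BCN
import Pool.Agent.helper70.T5.BCF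

set_option autoImplicit false

/-! # T5, blocks N and E assembled -/

namespace Pool.Agent.T5

theorem allNEAR : NEAR_stmt := NEAR (NS4 DM) (DC4 PC4 SG4 RDC) SS

theorem allSZ : SZ_stmt := SZ TR

theorem allCZ : CZ_stmt := CZ allSZ

theorem allCBR : CBR_stmt := CBR DYB allCZ

theorem allBLU : BLU_stmt := BLU FUP WEY allNEAR

theorem allBLE : BLE_stmt := BLE WEY allNEAR

theorem allFIB2 : FIB2_stmt := FIB2 (ARC AKR)

theorem allEQP : EQP_stmt := EQP RE1 RE2 TR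

theorem allEQC (δ : ℝ) (hδ : 0 < δ) (hδ1 : δ ≤ 1 / 10) : EQC_stmt δ :=
  EQD δ hδ hδ1 (EQE δ hδ hδ1 allFIB2 allBLE NUMC allEQP DYB) CPS

theorem allEQUB1 (δ : ℝ) (hδ : 0 < δ) (hδ1 : δ ≤ 1 / 10) : EQUB1_stmt δ :=
  EQB1 δ hδ hδ1 allBLU NUMC RE1 RE2 TR allCZ allCBR

theorem allEQUB2 (δ : ℝ) (hδ : 0 < δ) (hδ1 : δ ≤ 1 / 10) : EQUB2_stmt δ :=
  EQB2 δ hδ hδ1 allBLU NUMC RE1 RE2 TR allCZ allCBR

theorem allTW (δ : ℝ) (hδ : 0 < δ) (hδ1 : δ ≤ 1 / 10) : TW_stmt δ :=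
  TWD δ hδ hδ1 (TWA δ hδ hδ1 allBLU NUMT RE1 RE2 TR allCZ allCBR)
    (TWB δ hδ hδ1 allBLU NUMT RE1 RE2 TR allCZ allCBR)
    (TWC δ hδ hδ1 allBLU NUMC RE1 RE2 TR allCZ allCBR) (RelSum δ hδ hδ1)

theorem allBC : BC_stmt :=
  BCF (BCS (BCA BXA BXB allBLU RE1 RE2 TR allSZ) (SWP TR) allSZ TR DYB) BCN allSZ

end Pool.Agent.T5
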