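import Pool.Agent.helper95.T5.Defs

set_option autoImplicit false

/-!
# T5: interface statements of the blocks A (algebra), L (lattices), U (bounds), T (non genuine tuples)

`d = δ / 100`; `Y₂ = N ^ (1 / 2 + d)`; `N ^ (d / 100) = N ^ (δ / 10000)`.
-/

namespace Pool.Agent.T5

open Finset NumberField Pool.Agent.helper3.FT Pool.Agent.helper47.RA

variable {K : Type} [Field K] [NumberField K]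

/-! ## Block A (helper3): algebra -/

/-- admissible data: `L = (α) / a²` is primitive -/
structure Adm (Q : QF K) (a : Ideal (𝓞 K)) (α γ : 𝓞 K) : Prop where
  ne : a ≠ ⊥
  pa : Prim a
  mem : α ∈ a ^ 2
  n0 : 0 < Q.Y α
  ga : IsGam a α γ
  k0 : Q.Y γ ≠ 0
  pL : ∀ q : ℕ, q.Prime → ¬ Ideal.span {(q : 𝓞 K)} * a ^ 2 ∣ Ideal.span {α}

/-- `gcd (y(α), y(γ))` -/
noncomputable def gd (Q : QF K) (α γ : 𝓞 K) : ℕ := Int.gcd (Q.Y α) (Q.Y γ)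

open Classical in
/-- the factor of `wt` at `p` -/
noncomputable def wf (Q : QF K) (p : ℕ) (a : Ideal (𝓞 K)) (α : 𝓞 K) : ℝ :=
  if alw Q p a α then
    (if p ∣ Ideal.absNorm a ∧ ¬ (p : ℤ) ∣ Q.D then ((p : ℝ) / (p - 1)) ^ 2 else (p : ℝ) / (p - 1))
    else 0

/-- the reduced tuple `t` of `(a, α, γ)`, `d = gcd (y(α), y(γ))` -/
structure TupOf (Q : QF K) (a : Ideal (𝓞 K)) (α γ : 𝓞 K) (d : ℕ) (t : Tpl) : Prop where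
  tt : IsT t
  n : ((t.1.1 * d : ℕ) : ℤ) = Q.Y α
  k : ((t.1.2 * d : ℕ) : ℤ) = |Q.Y γ|
  Z : t.2.2.2 = Ideal.absNorm a
  L : lam t = lamI a α
  D : dis t = Q.D * (d : ℤ) ^ 2
  dd : ∃ d₁ d₂ : ℕ, d = d₁ * d₂ ∧ Nat.Coprime d₁ d₂ ∧ (d₁ : ℤ) ∣ t.2.1 ∧ (d₁ : ℤ) ∣ t.2.2.1 ∧
    IsCoprime (d₂ : ℤ) (t.2.2.2 * lam t)
  f : ∀ p : ℕ, p.Prime → ¬ p ∣ d → fp p t = wf Q p a α

/-- ALG: the correspondence between tuples and triples `(D, a, α)` -/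
def ALG_stmt : Prop :=
  ∀ (K : Type) [Field K] [NumberField K] (Q : QF K), Module.finrank ℚ K = 2 → Q.D < -4 →
  ∃ φ : Ideal (𝓞 K) → 𝓞 K → Tpl,
    (∀ a α γ, Adm Q a α γ → TupOf Q a α γ (gd Q α γ) (φ a α)) ∧
    (∀ a α γ a' α' γ', Adm Q a α γ → Adm Q a' α' γ' → gd Q α γ = gd Q α' γ' →
      φ a α = φ a' α' → a = a' ∧ α = α') ∧
    (∀ (t : Tpl) (f : ℕ), 1 ≤ f → IsT t → 0 < t.2.2.2 → 0 < lam t → dis t = Q.D * (f : ℤ) ^ 2 →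
      IsCoprime (f : ℤ) (t.2.2.2 * lam t) →
      ∃ a α γ, Adm Q a α γ ∧ gd Q α γ = f ∧ φ a α = t ∧ (a ^ 5).IsPrincipal ∧
        (1 < t.2.2.2 → 4 * t.2.2.2 < -Q.D → ¬ a.IsPrincipal))

/-! ## Block L (helper26): lattices -/

/-- L1: the weighted number of `α` -/
def L1_stmt (d : ℝ) : Prop :=
  ∀ w : ℕ, ∀ ε : ℝ, 0 < ε → ∃ N₀ : ℝ, ∀ (K : Type) [Field K] [NumberField K] (Q : QF K)
    (N Y : ℝ) (a : Ideal (𝓞 K)), Module.finrank ℚ K = 2 → N₀ ≤ N → N / 2 < -(Q.D : ℝ) →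
    -(Q.D : ℝ) ≤ N → a ∈ IA K Y → a ∉ EX Q Y (N ^ (1 / 2 - d / 2)) →
    ∀ F : Finset (𝓞 K), (∀ α, α ∈ F ↔ α ∈ AL Q a (N ^ d * √(-(Q.D : ℝ)))) →
      |∑ α ∈ F, wt Q w a α - Real.pi * N ^ d| ≤ ε * N ^ d

/-- L2: outside the good region -/
def L2_stmt (d : ℝ) : Prop :=
  ∃ C : ℝ, 1 ≤ C ∧ ∀ κ : ℝ, 0 < κ → κ ≤ 1 / 100 → ∀ w : ℕ, ∀ ε : ℝ, 0 < ε → ∃ N₀ : ℝ,
    ∀ (K : Type) [Field K] [NumberField K] (Q : QF K)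
    (N Y : ℝ) (a : Ideal (𝓞 K)), Module.finrank ℚ K = 2 → N₀ ≤ N → N / 2 < -(Q.D : ℝ) →
    -(Q.D : ℝ) ≤ N → a ∈ IA K Y → a ∉ EX Q Y (N ^ (1 / 2 - d / 2)) →
    ∀ F : Finset (𝓞 K), (∀ α ∈ F, α ∈ AL Q a (N ^ d * √(-(Q.D : ℝ))) ∧
      ∃ γ, IsGam a α γ ∧ ¬ GoodR Q κ (N ^ (1 / 2 + d)) a α γ) →
      ∑ α ∈ F, wt Q w a α ≤ (C * κ + ε) * N ^ d

/-- LB: lattice part of the `α` with `gcd (y(α), y(γ)) ≠ 1` -/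
def LB_stmt (d : ℝ) : Prop :=
  ∃ C : ℝ, 1 ≤ C ∧ ∀ w : ℕ, 2 ≤ w → ∀ ε : ℝ, 0 < ε → ∃ N₀ : ℝ,
    ∀ (K : Type) [Field K] [NumberField K] (Q : QF K)
    (N Y : ℝ) (a : Ideal (𝓞 K)), Module.finrank ℚ K = 2 → N₀ ≤ N → N / 2 < -(Q.D : ℝ) →
    -(Q.D : ℝ) ≤ N → Y ≤ N → a ∈ IA K Y → a ∉ EX Q Y (N ^ (1 / 2 - d / 2)) →
    ∀ F : Finset (𝓞 K), (∀ α ∈ F, α ∈ AL Q a (N ^ d * √(-(Q.D : ℝ))) ∧
      (∀ p ∈ pr w, alw Q p a α) ∧ ∃ γ, IsGam a α γ ∧ Q.Y γ ≠ 0 ∧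
        ((∃ p : ℕ, p.Prime ∧ w < p ∧ Ideal.span {(p : 𝓞 K)} * a ^ 2 ∣ Ideal.span {α}) ∨
         (∃ p : ℕ, p.Prime ∧ w < p ∧ (p : ℤ) ^ 2 ∣ Q.Y α ∧ (p : ℤ) ∣ Q.Y γ) ∨
         N ^ (d / 100) < (gd Q α γ : ℝ))) →
      (F.card : ℝ) ≤ (C / w + ε) * N ^ d

/-- LE: crude bound for all ideals -/
def LE_stmt (d : ℝ) : Prop :=
  ∃ C N₀ : ℝ, 1 ≤ C ∧ ∀ (K : Type) [Field K] [NumberField K] (Q : QF K)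
    (N Y : ℝ) (a : Ideal (𝓞 K)), Module.finrank ℚ K = 2 → N₀ ≤ N → N / 2 < -(Q.D : ℝ) →
    -(Q.D : ℝ) ≤ N → a ∈ IA K Y →
    ∀ F : Finset (𝓞 K), (∀ α ∈ F, α ∈ AL Q a (N ^ d * √(-(Q.D : ℝ))) ∧
      ∃ γ, IsGam a α γ ∧ gd Q α γ = 1) → (F.card : ℝ) ≤ C * N ^ d

/-! ## Fields of given discriminant, sums over `D` -/

/-- a quadratic field of discriminant `D` -/
structure Fld (D : ℤ) where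
  K : Type
  [fd : Field K]
  [nf : NumberField K]
  Q : QF K
  fin : Module.finrank ℚ K = 2
  dK : NumberField.discr K = D
  hD : Q.D = D

attribute [instance] Fld.fd Fld.nf

open Classical in
/-- number of primitive ideals of exact order 5 and norm in `(Y/2, Y]` in the field of discriminant `D` -/
noncomputable def cA (D : ℤ) (Y : ℝ) : ℕ :=
  if h : Nonempty (Fld D) then (IA h.some.K Y).ncard else 0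

open Classical in
/-- number of exceptional ideals -/
noncomputable def cE (D : ℤ) (Y B : ℝ) : ℕ :=
  if h : Nonempty (Fld D) then (EX h.some.Q Y B).ncard else 0

open Classical in
/-- negative fundamental discriminants with `N / 2 < -D ≤ N` -/
noncomputable def DN (N : ℝ) : Finset ℤ :=
  (Icc (-⌊N⌋) (-1)).filter (fun D => IsFund D ∧ N / 2 < -(D : ℝ))

/-! ## Block U (helper8) -/

/-- U: upper bound up to `N ^ ε` for all `N, Y` -/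
def U_stmt : Prop :=
  ∀ ε : ℝ, 0 < ε → ∃ C : ℝ, 1 ≤ C ∧ ∀ N Y : ℝ, 1 ≤ N → 1 ≤ Y →
    ∑ D ∈ DN N, (cA D Y : ℝ) ≤ C * (N * Y) ^ ε * (Y * √N)

/-- EXC: the exceptional ideals are few -/
def EXC_stmt (δ : ℝ) : Prop :=
  ∃ c N₀ : ℝ, 0 < c ∧ ∀ N Y : ℝ, N₀ ≤ N → N ^ (0.39 : ℝ) ≤ Y → Y ≤ N ^ (1 / 2 - δ) →
    ∑ D ∈ DN N, (cE D Y (N ^ (1 / 2 - δ / 200)) : ℝ) ≤ N ^ (-c) * (Y * √N)

/-! ## Block T: tuples with a conductor -/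

/-- T1: small primes (from EQUB1, EQUB2 and local counts) -/
def T1_stmt (δ : ℝ) : Prop :=
  ∀ κ : ℝ, 0 < κ → ∃ C : ℝ, 1 ≤ C ∧ ∀ w : ℕ, 2 ≤ w → ∀ ε : ℝ, 0 < ε → ∃ N₀ : ℝ, ∀ N Y : ℝ, N₀ ≤ N →
    N ^ (0.39 : ℝ) ≤ Y → Y ≤ N ^ (1 / 2 - δ) → ∀ F : Finset Tpl,
    (∀ t ∈ F, Cen κ N Y (N ^ (1 / 2 + δ / 100)) t ∧
      ∃ p : ℕ, p.Prime ∧ w < p ∧ (p : ℝ) ≤ N ^ (δ / 10000) ∧ (p : ℤ) ^ 2 ∣ dis t) →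
    (F.card : ℝ) ≤ (C / w + ε) * (Y * N ^ (1 / 2 + δ / 100))

/-- BT: tuples of discriminant divisible by `d²` at scale `N d²` (from EQUB1 and local counts) -/
def BT_stmt (δ : ℝ) : Prop :=
  ∀ κ : ℝ, 0 < κ → ∃ C N₀ : ℝ, 1 ≤ C ∧ ∀ N Y : ℝ, N₀ ≤ N →
    N ^ (0.39 : ℝ) ≤ Y → Y ≤ N ^ (1 / 2 - δ) → ∀ d : ℕ, 3 ≤ d → Odd d → (d : ℝ) ≤ N ^ (δ / 10000) →
    ∀ F : Finset Tpl, (∀ t ∈ F, Cen κ (N * (d : ℝ) ^ 2) Y (N ^ (1 / 2 + δ / 100)) t ∧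
      Nat.Coprime t.1.1 d ∧ (d : ℤ) ^ 2 ∣ dis t ∧
      ∃ d₁ d₂ : ℕ, d = d₁ * d₂ ∧ Nat.Coprime d₁ d₂ ∧ (d₁ : ℤ) ∣ t.2.1 ∧ (d₁ : ℤ) ∣ t.2.2.1 ∧
        IsCoprime (d₂ : ℤ) (t.2.2.2 * lam t)) →
    (F.card : ℝ) ≤ (C * d.divisors.card / (d : ℝ) ^ 2 + N ^ (-(δ / 4))) * (Y * N ^ (1 / 2 + δ / 100))

/-- T3: large conductors (cosets of `Cl(D)[5]`, FiveTorsion) -/
def T3_stmt (δ : ℝ) : Prop :=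
  ∀ κ : ℝ, 0 < κ → ∃ c N₀ : ℝ, 0 < c ∧ ∀ N Y : ℝ, N₀ ≤ N →
    N ^ (0.39 : ℝ) ≤ Y → Y ≤ N ^ (1 / 2 - δ) → ∀ F : Finset Tpl,
    (∀ t ∈ F, Cen κ N Y (N ^ (1 / 2 + δ / 100)) t ∧
      ∃ (f : ℕ) (D₀ : ℤ), IsFund D₀ ∧ dis t = D₀ * (f : ℤ) ^ 2 ∧
        (∀ p : ℕ, p.Prime → p ∣ f → N ^ (δ / 10000) < p) ∧ N ^ (1 / 2 + δ / 100) / Y < f) →
    (F.card : ℝ) ≤ N ^ (-c) * (Y * N ^ (1 / 2 + δ / 100))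

/-- T4: conductors coprime to `Z Λ` (from ALG, U and lattices) -/
def T4_stmt (δ : ℝ) : Prop :=
  ∀ κ : ℝ, 0 < κ → ∃ c N₀ : ℝ, 0 < c ∧ ∀ N Y : ℝ, N₀ ≤ N →
    N ^ (0.39 : ℝ) ≤ Y → Y ≤ N ^ (1 / 2 - δ) → ∀ F : Finset Tpl,
    (∀ t ∈ F, Cen κ N Y (N ^ (1 / 2 + δ / 100)) t ∧
      ∃ (f : ℕ) (D₀ : ℤ), IsFund D₀ ∧ dis t = D₀ * (f : ℤ) ^ 2 ∧
        IsCoprime (f : ℤ) (t.2.2.2 * lam t) ∧ N ^ (δ / 10000) < f ∧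
        (f : ℝ) ≤ N ^ (1 / 2 + δ / 100) / Y) →
    (F.card : ℝ) ≤ N ^ (-c) * (Y * N ^ (1 / 2 + δ / 100))

/-! ## Slices and the main theorem (helper95) -/

/-- the constant of the slices -/
noncomputable def c0 : ℝ := Real.pi / 2 * (1 - 1 / √2) * (6 / Real.pi ^ 2) ^ 2

/-- SLU: upper bound for slices -/
def SLU_stmt (δ : ℝ) : Prop :=
  ∀ ε : ℝ, 0 < ε → ∃ N₀ : ℝ, ∀ N Y : ℝ, N₀ ≤ N → N ^ (0.39 : ℝ) ≤ Y → Y ≤ N ^ (1 / 2 - δ) →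
    ∑ D ∈ DN N, (cA D Y : ℝ) ≤ (c0 + ε) * (Y * √N)

/-- SLL: lower bound for slices -/
def SLL_stmt (δ : ℝ) : Prop :=
  ∀ ε : ℝ, 0 < ε → ∃ N₀ : ℝ, ∀ N Y : ℝ, N₀ ≤ N → N ^ (0.39 : ℝ) ≤ Y → Y ≤ N ^ (1 / 2 - δ) →
    (c0 - ε) * (Y * √N) ≤ ∑ D ∈ DN N, (cA D Y : ℝ)

/-- the number of all ideals of norm at most `Y` whose class has order exactly 5 -/
def ALLI (K : Type) [Field K] [NumberField K] (Y : ℝ) : Set (Ideal (𝓞 K)) :=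
  {a | a ≠ ⊥ ∧ (a ^ 5).IsPrincipal ∧ ¬ a.IsPrincipal ∧ (Ideal.absNorm a : ℝ) ≤ Y}

open Classical in
/-- MAIN -/
def MAIN_stmt : Prop :=
  ∀ h : ℤ → ℝ → ℕ, (∀ (K : Type) [Field K] [NumberField K], Module.finrank ℚ K = 2 → ∀ Y : ℝ,
    h (NumberField.discr K) Y = (ALLI K Y).ncard) →
  ∀ δ : ℝ, 0 < δ → ∀ ε : ℝ, 0 < ε → ∃ N₀ : ℝ, ∀ N Y : ℝ, N₀ ≤ N → N ^ (2 / 5 : ℝ) ≤ Y →
    Y ≤ N ^ (1 / 2 - δ) →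
    |∑ D ∈ (Icc (-⌊N⌋) (-1)).filter IsFund, (h D Y : ℝ) - 6 / Real.pi * (Y * √N)| ≤ ε * (Y * √N)

end Pool.Agent.T5
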