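import Pool.Agent.helper82.T5.SpecS

set_option autoImplicit false

/-!
# T5: the main theorem for classes

The number of classes of order 5 which contain an ideal of norm at most `Y`.
-/

namespace Pool.Agent.T5

open Finset NumberField Pool.Agent.helper3.FT Pool.Agent.helper47.RA
open scoped nonZeroDivisors

/-- classes of order exactly 5 which contain an integral ideal of norm at most `Y` -/
def CLS (K : Type) [Field K] [NumberField K] (Y : ℝ) : Set (ClassGroup (𝓞 K)) :=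
  {c | c ^ 5 = 1 ∧ c ≠ 1 ∧ ∃ a : (Ideal (𝓞 K))⁰, ClassGroup.mk0 a = c ∧
    (Ideal.absNorm (a : Ideal (𝓞 K)) : ℝ) ≤ Y}

open Classical in
/-- MAIN2 -/
def MAIN2_stmt : Prop :=
  ∀ h : ℤ → ℝ → ℕ, (∀ (K : Type) [Field K] [NumberField K], Module.finrank ℚ K = 2 → ∀ Y : ℝ,
    h (NumberField.discr K) Y = (CLS K Y).ncard) →
  ∀ δ : ℝ, 0 < δ → ∀ ε : ℝ, 0 < ε → ∃ N₀ : ℝ, ∀ N Y : ℝ, N₀ ≤ N → N ^ (2 / 5 : ℝ) ≤ Y →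
    Y ≤ N ^ (1 / 2 - δ) →
    |∑ D ∈ (Icc (-⌊N⌋) (-1)).filter IsFund, (h D Y : ℝ) - 36 / Real.pi ^ 3 * (Y * √N)| ≤ ε * (Y * √N)

/-- **SC1** (medium; uses SFA (1) or `Ideal.finite_setOf_absNorm_le`).  Classes and primitive ideals.
Proof. Map a primitive `b` to its class (`b ∈ IA K (Y / 2^j)` for exactly one `j < J` when `N b ≤ Y < 2^J`, `N b ≥ 1`; `b^5` principal, `b` not principal translate to `c^5 = 1`, `c ≠ 1`: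
`ClassGroup.mk0_eq_one_iff`, `map_pow`).  Surjective onto `CLS K Y`: `a = (r) b`, `r` maximal with `(r) ∣ a` (as in SR1), `b` primitive, the same class, `N b ≤ N a ≤ Y`.  This gives `≤`.
Injective if `4 Y² < -D`: `b, b'` primitive in the same class with norms `≤ Y`: `b · Q.bar b'` is principal (`mul_bar`: `b' · bar b' = (N b')`), `= (x)`, `N(x) = N b N b' ≤ Y²`; `4 N(x) = T² - D y²`
(`QF.absNorm_eq`, `QF.norm_form`), so `y = 0` and `x ∈ ℤ`; `b (N b') = b · bar b' · b' = (x) b'`; both primitive, so `|x| = N b'` and `b = b'` (last argument of SR1). -/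
def SC1_stmt : Prop := ∀ (K : Type) [Field K] [NumberField K] (Q : QF K), Module.finrank ℚ K = 2 → Q.D < 0 → ∀ (Y : ℝ) (J : ℕ), 0 < Y → Y < 2 ^ J →
  (CLS K Y).ncard ≤ ∑ j ∈ range J, (IA K (Y / 2 ^ j)).ncard ∧
  (4 * Y ^ 2 < -(Q.D : ℝ) → (CLS K Y).ncard = ∑ j ∈ range J, (IA K (Y / 2 ^ j)).ncard)

open Classical in
/-- **SC2** (short to medium; from SC1, SFA; compare SR2).  The sum over `D`.
Proof. `IsFund D`, `-N ≤ D ≤ -1`: field `E` (SFA (3)), `h D Y = (CLS E.K Y).ncard` (`E.dK`); take for `E` the chosen field of `cA`.  `D` lies in exactly one `DN (N / 2^i)`, `i < I`.  SC1 gives the upper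
bound for all `i` and equality for `i < I'`: `4 Y² ≤ N / 2^I' ≤ N / 2^(i+1) < -D`. -/
def SC2_stmt : Prop := ∀ h : ℤ → ℝ → ℕ, (∀ (K : Type) [Field K] [NumberField K], Module.finrank ℚ K = 2 → ∀ Y : ℝ,
    h (NumberField.discr K) Y = (CLS K Y).ncard) →
  ∀ (N Y : ℝ) (I I' J : ℕ), 1 ≤ N → 0 < Y → N < 2 ^ I → Y < 2 ^ J → I' ≤ I → 4 * Y ^ 2 * 2 ^ I' ≤ N →
  ∑ i ∈ range I', ∑ j ∈ range J, ∑ D ∈ DN (N / 2 ^ i), (cA D (Y / 2 ^ j) : ℝ) ≤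
      ∑ D ∈ (Icc (-⌊N⌋) (-1)).filter IsFund, (h D Y : ℝ) ∧
  ∑ D ∈ (Icc (-⌊N⌋) (-1)).filter IsFund, (h D Y : ℝ) ≤
    ∑ i ∈ range I, ∑ j ∈ range J, ∑ D ∈ DN (N / 2 ^ i), (cA D (Y / 2 ^ j) : ℝ)

/-- **SC3** (medium; real analysis, as SR3 without the sum over `r`).
Proof. `u(i,j) = 2^(-i/2) 2^(-j)`, `U₀ = ∑ u = 2 (1 - 1/√2)⁻¹`, `c0 U₀ = 36/π³`.  Upper bound as in SR3: IN = the indices with `N/2^i ≥ N^(1-δ/2)` and `2^j ≤ N^(1/200)`, there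
`A (N/2^i) (Y/2^j) ≤ (c0 + ε₁) u Y √N`; OUT by the second hypothesis: `∑_OUT u ≤ C' (N^(-δ/4) + N^(-1/200))`.  Lower bound: `I'` = the largest integer with `4 Y² 2^I' ≤ N`; `I' → ∞` as
`4 Y² ≤ 4 N^(1-2δ)`; all `i < i₀`, `j < j₀` (fixed) are allowed for large `N` and there `A ≥ (c0 - ε₁) u Y √N`. -/
def SC3_stmt : Prop := ∀ A : ℝ → ℝ → ℝ, (∀ N Y, 0 ≤ A N Y) → (∀ N Y, N < 1 → A N Y = 0) → (∀ N Y, Y < 1 → A N Y = 0) →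
  (∀ δ : ℝ, 0 < δ → δ ≤ 1 / 10 → ∀ ε : ℝ, 0 < ε → ∃ N₀ : ℝ, ∀ N Y : ℝ, N₀ ≤ N → N ^ (0.39 : ℝ) ≤ Y → Y ≤ N ^ (1 / 2 - δ) →
    |A N Y - c0 * (Y * √N)| ≤ ε * (Y * √N)) →
  (∀ ε : ℝ, 0 < ε → ∃ C : ℝ, 1 ≤ C ∧ ∀ N Y : ℝ, 1 ≤ N → 1 ≤ Y → A N Y ≤ C * (N * Y) ^ ε * (Y * √N)) →
  ∀ δ : ℝ, 0 < δ → ∀ ε : ℝ, 0 < ε → ∃ N₀ : ℝ, 1 ≤ N₀ ∧ ∀ N Y : ℝ, N₀ ≤ N → N ^ (2 / 5 : ℝ) ≤ Y → Y ≤ N ^ (1 / 2 - δ) →
    ∃ I' J₀ : ℕ, 4 * Y ^ 2 * 2 ^ I' ≤ N ∧ ∀ I J : ℕ, J₀ ≤ J →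
      ∑ i ∈ range I, ∑ j ∈ range J, A (N / 2 ^ i) (Y / 2 ^ j) ≤ (36 / Real.pi ^ 3 + ε) * (Y * √N) ∧
      (36 / Real.pi ^ 3 - ε) * (Y * √N) ≤ ∑ i ∈ range I', ∑ j ∈ range J, A (N / 2 ^ i) (Y / 2 ^ j)

/-- **SCM** (short; from SC2, SC3; as SMA). `A N Y = ∑_{D ∈ DN N} cA D Y`. -/
def SCM_stmt : Prop := (∀ δ : ℝ, 0 < δ → δ ≤ 1 / 10 → SLU_stmt δ) → (∀ δ : ℝ, 0 < δ → δ ≤ 1 / 10 → SLL_stmt δ) → U_stmt → MAIN2_stmt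

end Pool.Agent.T5
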