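import Pool.Agent.helper95.T5.SpecN

set_option autoImplicit false

/-!
# T5, block E: applications of the engine (EQC, EQUB, BC, TW)

Notation in the proofs: `S = Y Y₂ / N`; central sizes `sN, sK, sM, sG`; `H₀ = N₁³ K₁ / Y`.
Relations between the sizes: `√Y sN = sM`, `Y sK = √Y₂ sM`, `√Y₂ sK = sG`, `Y₂ sN = √Y sG`,
`sM sG = Y₂ sN²`, `sN sK = (Y Y₂)^(3/2) / N`, `sN³ sK / Y = (Y Y₂)^(5/2) / N²`.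
-/

namespace Pool.Agent.T5

open Finset NumberField Pool.Agent.helper3.FT Pool.Agent.helper47.RA

/-- **TR** (short-medium).  The relations of a tuple.
Proof. `n³ ∣ Z k⁴ + m g k² - g² n²` gives `n² ∣ k² (m g + Z k²)`, `n` coprime to `k`: `n² ∣ m g + Z k²`.  Then
`n² (g² - Λ k²) = n² g² - k² (m g + Z k²)` is divisible by `n³`, so `n ∣ g² - Λ k²`.  `k ∣ Z g - Λ m`: times `n²`: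
`Z g n² - (m g + Z k²) m = g (Z n² - m²) - Z k² m`; this also gives the formula `n² (Zg - Λm) = k (g R - m k Z)`.
`n ∣ Z g + Λ m`: times `k²`: `Z k² g + Λ m k² ≡ (Λ n² - m g) g + Λ m k² ≡ - m (g² - Λ k²) (mod n)`.
`(Zg - Λm)² - 4 Z² Λ k² = (Zg + Λm)² - 4 Z Λ² n²` (as `Z Λ m g = Z Λ (Λ n² - Z k²)`), so `k²` and `n²` divide this number, and
`(n k)²` does.  `D n² = p² - 4 Z² Λ`, `D k² = r² - 4 Z Λ²` with `p = (Zg-Λm)/k`, `r = (Zg+Λm)/n`; one of `n, k` is odd, so `D ≡ 0, 1 mod 4`.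
(See the LT module of `lam_dis`.) -/
def TR_stmt : Prop :=
  ∀ t : Tpl, IsT t →
    lam t * (t.1.1 : ℤ) ^ 2 = t.2.1 * t.2.2.1 + t.2.2.2 * (t.1.2 : ℤ) ^ 2 ∧
    (t.1.2 : ℤ) * RR t = t.2.2.2 * (t.1.1 : ℤ) ^ 2 - t.2.1 ^ 2 ∧
    (t.1.1 : ℤ) * RR' t = t.2.2.1 ^ 2 - lam t * (t.1.2 : ℤ) ^ 2 ∧
    t.2.2.2 * (t.1.2 : ℤ) ^ 4 + t.2.1 * t.2.2.1 * (t.1.2 : ℤ) ^ 2 - t.2.2.1 ^ 2 * (t.1.1 : ℤ) ^ 2 =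
      -((t.1.1 : ℤ) ^ 3 * RR' t) ∧
    dis t * ((t.1.1 : ℤ) * t.1.2) ^ 2 =
      (t.2.2.2 * t.2.2.1 - lam t * t.2.1) ^ 2 - 4 * t.2.2.2 ^ 2 * lam t * (t.1.2 : ℤ) ^ 2 ∧
    dis t * ((t.1.1 : ℤ) * t.1.2) ^ 2 =
      (t.2.2.2 * t.2.2.1 + lam t * t.2.1) ^ 2 - 4 * t.2.2.2 * lam t ^ 2 * (t.1.1 : ℤ) ^ 2 ∧
    (t.1.1 : ℤ) ^ 2 * (t.2.2.2 * t.2.2.1 - lam t * t.2.1) =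
      (t.1.2 : ℤ) * (t.2.2.1 * RR t - t.2.1 * t.1.2 * t.2.2.2) ∧
    (t.1.2 : ℤ) ∣ t.2.2.2 * t.2.2.1 - lam t * t.2.1 ∧ (t.1.1 : ℤ) ∣ t.2.2.2 * t.2.2.1 + lam t * t.2.1 ∧
    (dis t % 4 = 0 ∨ dis t % 4 = 1)

/-- **SZ** (short; from TR).  Sizes, for negative discriminant.
Proof. `- dis n² ≤ 4 Z² Λ` and `- dis k² ≤ 4 Z Λ²` from the two forms of `dis (nk)²`; `|Zg - Λm| ≤ 2 Z √Λ k`,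
`|Zg + Λm| ≤ 2 √Z Λ n`; add and subtract. -/
def SZ_stmt : Prop :=
  ∀ t : Tpl, IsT t → 0 < t.2.2.2 → 0 < lam t → dis t < 0 →
    (t.1.1 : ℝ) * √(-(dis t : ℝ)) ≤ 2 * t.2.2.2 * √(lam t : ℝ) ∧
    (t.1.2 : ℝ) * √(-(dis t : ℝ)) ≤ 2 * √(t.2.2.2 : ℝ) * lam t ∧
    |(t.2.1 : ℝ)| ≤ √(t.2.2.2 : ℝ) * t.1.1 + t.2.2.2 / √(lam t : ℝ) * t.1.2 ∧
    |(t.2.2.1 : ℝ)| ≤ lam t / √(t.2.2.2 : ℝ) * t.1.1 + √(lam t : ℝ) * t.1.2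

/-- the symmetric tuple -/
def swp (t : Tpl) : Tpl := ((t.1.2, t.1.1), (t.2.2.1, -t.2.1, lam t))

/-- **SWP** (short; from TR).  `Λ n⁴ - g m n² - m² k² = n² Z k² - m² k² = k³ R`.  `swp` is injective on `IsT`, `lam (swp t) = Z`. -/
def SWP_stmt : Prop :=
  (∀ t : Tpl, IsT t → IsT (swp t) ∧ lam (swp t) = t.2.2.2 ∧ dis (swp t) = dis t ∧ RR (swp t) = -RR' t) ∧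
  (∀ t t' : Tpl, IsT t → IsT t' → swp t = swp t' → t = t')

/-- **CZ** (short; from SZ).  Sizes in the central set (`0 < κ ≤ 1`).
Proof. `κ Y₂ ≤ Λ ≤ Y₂` (from `l2`, `-dis ≤ N`), `N/2 < -dis ≤ N`, `Y/2 < Z ≤ Y`.  `n √(-dis) ≥ 2 κ Z √Λ` gives
`n ≥ κ^(3/2) sN`, `k ≥ κ² sK`; SZ gives `n ≤ 2√2 sN`, `k ≤ 2√2 sK`, `|m| ≤ √Y n + Y k/√(κ Y₂) ≤ 2√2 (1 + κ^(-1/2)) sM`,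
`|g| ≤ √2 Y₂/√Y n + √Y₂ k ≤ 7 sG`. -/
def CZ_stmt : Prop :=
  ∀ (κ N Y Y₂ : ℝ) (t : Tpl), 0 < κ → κ ≤ 1 → 1 ≤ N → 1 ≤ Y → 1 ≤ Y₂ → Cen κ N Y Y₂ t →
    κ ^ 2 * sN N Y Y₂ ≤ t.1.1 ∧ (t.1.1 : ℝ) ≤ 3 * sN N Y Y₂ ∧
    κ ^ 2 * sK N Y Y₂ ≤ t.1.2 ∧ (t.1.2 : ℝ) ≤ 3 * sK N Y Y₂ ∧
    |(t.2.1 : ℝ)| ≤ 6 / κ * sM N Y Y₂ ∧ |(t.2.2.1 : ℝ)| ≤ 8 * sG N Y Y₂ ∧
    0 < t.2.2.2 ∧ 0 < lam t ∧ dis t < 0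

/-- central block -/
structure Blk (c₀ C₀ N Y Y₂ : ℝ) (N₁ K₁ : ℕ) : Prop where
  n1 : c₀ * sN N Y Y₂ ≤ N₁
  n2 : (N₁ : ℝ) ≤ C₀ * sN N Y Y₂
  k1 : c₀ * sK N Y Y₂ ≤ K₁
  k2 : (K₁ : ℝ) ≤ C₀ * sK N Y Y₂

/-- **DYB** (short).  Dyadic blocks.
Proof. `I` = the powers of 2 in `[A, 2B]`. -/
def DYB_stmt : Prop :=
  ∀ A B : ℝ, 1 ≤ A → A ≤ B → ∃ I : Finset ℕ, (I.card : ℝ) ≤ 2 + 2 * Real.log (B / A) ∧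
    (∀ N₁ ∈ I, 1 ≤ N₁ ∧ A ≤ N₁ ∧ (N₁ : ℝ) ≤ 2 * B) ∧
    ∀ n : ℕ, A ≤ n → (n : ℝ) ≤ B → ∃ N₁ ∈ I, N₁ < 2 * n ∧ n ≤ N₁

/-- **CBR** (short; from DYB, CZ).  Reduction of the central set to blocks.
Proof. CZ: `κ² sN ≤ n ≤ 3 sN`, `κ² sK ≤ k ≤ 3 sK`; DYB for both; the number of blocks is at most `(2 + 2 log(3/κ²))²`. -/
def CBR_stmt : Prop :=
  ∀ κ : ℝ, 0 < κ → κ ≤ 1 → ∃ C : ℝ, 1 ≤ C ∧ ∀ N Y Y₂ : ℝ, 1 ≤ N → 1 ≤ Y → 1 ≤ Y₂ → 1 ≤ κ ^ 2 * sN N Y Y₂ →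
    1 ≤ κ ^ 2 * sK N Y Y₂ → ∀ F : Finset Tpl, (∀ t ∈ F, Cen κ N Y Y₂ t) → ∀ B : ℝ, 0 ≤ B →
    (∀ N₁ K₁ : ℕ, 1 ≤ N₁ → 1 ≤ K₁ → Blk (κ ^ 2) 6 N Y Y₂ N₁ K₁ → ∀ F' ⊆ F,
      (∀ t ∈ F', N₁ < 2 * t.1.1 ∧ t.1.1 ≤ N₁ ∧ K₁ < 2 * t.1.2 ∧ t.1.2 ≤ K₁) → (F'.card : ℝ) ≤ B) →
    (F.card : ℝ) ≤ C * B

/-- **AKR** (medium).  Interval kernel with a sharp frequency cut off (Jackson kernel).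
Proof. `K(z) = |∑_{j<H} e(j z)|⁴ / c_H`, `c_H = (2H³+H)/3` (the number of `j₁+j₂ = j₃+j₄`): `K(z) = ∑_{|h|<2H} k_h e(h z)`, `k_0 = 1`, `0 ≤ k_h ≤ 1`,
`k_{-h} = k_h`, and `0 ≤ K(z) ≤ (3/(2H³)) (2 nd z)^(-4)` (`|∑_{j<H} e(jz)| ≤ 1/(2 nd z)`), so the integral of `K` over a period outside `nd z ≤ t` is at most
`2 ∫_t^∞ 3/(32 H³ z⁴) dz = 1/(16 H³ t³)`.  `f(x) = ∫_u^v K(x-y) dy`, `a_h = k_h ∫_u^v e(-hy) dy`.  `0 ≤ f ≤ 1` as `v - u ≤ 1`.  (3) the `y` with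
`nd (x-y) ≤ t` lie in `[u,v]` modulo 1; (4) they are disjoint from `[u,v]` modulo 1. -/
def AKR_stmt : Prop :=
  ∀ (H : ℕ) (u v : ℝ), 1 ≤ H → u < v → v ≤ u + 1 → ∃ (a : ℤ → ℂ) (f : ℝ → ℝ),
    (∀ x : ℝ, (f x : ℂ) = ∑ h ∈ Ioo (-(2 * H : ℤ)) (2 * H), a h * e (h * x)) ∧ (∀ x, 0 ≤ f x ∧ f x ≤ 1) ∧
    a 0 = ((v - u : ℝ) : ℂ) ∧ (∀ h, ‖a h‖ ≤ v - u) ∧
    (∀ t x : ℝ, 0 < t → (∃ z : ℤ, u + t ≤ x - z ∧ x - z ≤ v - t) → 1 - f x ≤ 1 / (16 * H ^ 3 * t ^ 3)) ∧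
    (∀ t x : ℝ, 0 < t → (∀ z : ℤ, x - z ≤ u - t ∨ v + t ≤ x - z) → f x ≤ 1 / (16 * H ^ 3 * t ^ 3))

open Classical in
/-- **ARC** (medium; from AKR).  Equidistribution in arcs with sharp frequency cut off.
Proof. `η' = η/8`; `E = l ∑_{h ≤ 2H} |S_h|`, `S_h = ∑ e(h x_i)`, `|S_{-h}| = |S_h|`.  Upper bound for any arc `A = [c, c+l)`: AKR with `u = c - η'l`,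
`v = c + l + η'l` (`l ≤ 1/4`), `t = η' l`: `(1 - 1/(16 (Hη'l)³)) #A ≤ ∑_i f(x_i) ≤ |s| (1+2η')l + 2(1+2η') E`; for `H l ≥ R` this gives
`#A ≤ (1 + 3η') |s| l + 8 E`.
Lower bound: `u = c + η'l`, `v = c + l - η'l`: `|s| (1-2η') l - 2 E ≤ ∑ f(x_i) ≤ #A + ∑_{x_i ∉ A} f(x_i)`; cover the complement of `A` modulo 1 by the arcs
`[c + j l, c + (j+1) l)` and `[c - j l, c - (j-1) l)`, `1 ≤ j ≤ 1/(2l) + 1`: on these `f ≤ 1/(16 H³ ((j-1+η') l)³)` by (4); by the upper bound the sum is at most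
`C (H l η')^(-3) (|s| l + E)`.  `R = C/η'^2` is enough. -/
def ARC_stmt : Prop :=
  ∀ η : ℝ, 0 < η → η ≤ 1 → ∃ R C : ℝ, 1 ≤ R ∧ 1 ≤ C ∧ ∀ {ι : Type} (s : Finset ι) (x : ι → ℝ) (c l : ℝ) (H : ℕ),
    0 < l → l ≤ 1 / 4 → R ≤ H * l →
    |((s.filter (fun i => ∃ z : ℤ, c ≤ x i - z ∧ x i - z < c + l)).card : ℝ) - s.card * l| ≤
      η * (s.card * l) + C * ∑ h ∈ Icc 1 (2 * H), l * ‖∑ i ∈ s, e (h * x i)‖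

/-- **FIB2** (short; from ARC; see helper42/T5/FIB.lean for the number of integers in a class).
Proof. `x = (α m² + β m g + γ g² + c₀)/q`, arc `[z₀/q, (z₀+V)/q)` (shift by half an integer over `q` is not needed: `z` integer,
`x q` integer); `(m,g,z) ↦ (m,g)` injective on the fibre.  The number of `(m,g)` is `(M/P + O(1))(G/P + O(1))`. -/
def FIB2_stmt : Prop :=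
  ∀ η : ℝ, 0 < η → η ≤ 1 → ∃ R C : ℝ, 1 ≤ R ∧ 1 ≤ C ∧ ∀ (m₀ g₀ z₀ : ℤ) (M G V P q H : ℕ)
    (r r' α β γ c₀ : ℤ), 1 ≤ P → P ≤ M → P ≤ G → 1 ≤ V → 4 * V ≤ q → R * q ≤ H * V →
    |((fibG m₀ g₀ z₀ M G V P q r r' α β γ c₀).card : ℝ) - (M : ℝ) / P * ((G : ℝ) / P) * (V : ℝ) / q| ≤
      (η * ((M : ℝ) / P * ((G : ℝ) / P)) + C * ((M : ℝ) / P + G / P)) * V / q +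
      C * ((V : ℝ) / q) * ∑ h ∈ Icc 1 (2 * H),
        ‖ESg m₀ g₀ M G P r r' (h * α / q) (h * β / q) (h * γ / q) 0 0‖

/-- **BLU** (short-medium; from FUP, WEY, NEAR).  Upper bound for a block.
Proof. `q = n³ k e ≥ N³ K e / 16`, so `4 H V ≤ q`: FUP for every pair; `‖ES‖ ≤ C T^ε √(M G) √nearG` (WEY), NEAR. -/
def BLU_stmt : Prop :=
  ∀ ε : ℝ, 0 < ε → ∃ C : ℝ, 1 ≤ C ∧ ∀ (T N K M G V P e q₁ q₂ y H : ℕ) (a : Fin 4 → ℕ)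
    (W : Finset (ℕ × ℕ)) (r s : ℕ × ℕ → ℕ) (ρ : ℕ × ℕ → ℤ × ℤ × ℤ) (m₀ g₀ z₀ r₁ r₂ c₀ : ℕ × ℕ → ℤ),
    1 ≤ N → N ≤ T → 1 ≤ K → K ≤ T → 1 ≤ M → M ≤ T → 1 ≤ G → G ≤ T → 1 ≤ H → H ≤ T → 1 ≤ V → 1 ≤ P →
    1 ≤ e → 1 ≤ q₁ → 1 ≤ q₂ → q₁ * q₂ * e ≤ T → 1 ≤ y → y ≤ T → (∀ i, a i ≤ T) → Squarefree y →
    Sides N K M G H e q₁ q₂ a → W ⊆ pairs N K y → Resid W q₁ q₂ e r s ρ → 64 * H * V ≤ N ^ 3 * K * e →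
    ∑ p ∈ W, ((fibG (m₀ p) (g₀ p) (z₀ p) M G V P (p.1 ^ 3 * p.2 * e) (r₁ p) (r₂ p)
      (ρ p).1 (ρ p).2.1 (ρ p).2.2 (c₀ p)).card : ℝ) ≤
      2 / H * (((M : ℝ) / P + 1) * ((G : ℝ) / P + 1)) * (W.card : ℝ) +
        C * (T : ℝ) ^ ε * (√((M : ℝ) * G) / H) * nB N K H y q₁ q₂ e a

/-- **BLE** (short-medium; from WEY, NEAR).  The exponential sums of a block. -/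
def BLE_stmt : Prop :=
  ∀ ε : ℝ, 0 < ε → ∃ C : ℝ, 1 ≤ C ∧ ∀ (T N K M G P e y H : ℕ) (a : Fin 4 → ℕ)
    (W : Finset (ℕ × ℕ)) (r s : ℕ × ℕ → ℕ) (ρ : ℕ × ℕ → ℤ × ℤ × ℤ) (m₀ g₀ r₁ r₂ : ℕ × ℕ → ℤ),
    1 ≤ N → N ≤ T → 1 ≤ K → K ≤ T → 1 ≤ M → M ≤ T → 1 ≤ G → G ≤ T → 1 ≤ H → H ≤ T → 1 ≤ P →
    1 ≤ e → e ≤ T → 1 ≤ y → y ≤ T → (∀ i, a i ≤ T) → Squarefree y →
    Sides N K M G H e 1 1 a → W ⊆ pairs N K y → Resid W 1 1 e r s ρ →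
    ∑ p ∈ W, ∑ h ∈ Icc 1 H, ‖ESg (m₀ p) (g₀ p) M G P (r₁ p) (r₂ p) (h * (ρ p).1 / ((p.1 ^ 3 * p.2 * e : ℕ) : ℝ))
      (h * (ρ p).2.1 / ((p.1 ^ 3 * p.2 * e : ℕ) : ℝ)) (h * (ρ p).2.2 / ((p.1 ^ 3 * p.2 * e : ℕ) : ℝ)) 0 0‖ ≤
      C * (T : ℝ) ^ ε * √((M : ℝ) * G) * nB N K H y 1 1 e a

/-- the range of the parameters -/
structure Rng (δ N Y Y₂ : ℝ) : Prop where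
  y1 : N ^ (0.385 : ℝ) ≤ Y
  y2 : Y ≤ N ^ (1 / 2 - δ)
  w1 : N ^ (1 / 2 : ℝ) ≤ Y₂
  w2 : Y₂ ≤ N ^ (1 / 2 + δ / 100)

/-- the relative error of a central block, for `y ∣ n k` or a twist `y` -/
noncomputable def relE (δ N Y Y₂ y : ℝ) : ℝ :=
  N ^ (δ / 100) * √(max 1 (N / Y ^ (5 / 2 : ℝ))) * (Y * Y₂ / N) ^ (3 / 2 : ℝ) * (1 + √(y * (Y * Y₂ / N)))

/-- **NUMC** (medium, numerical).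
Proof. Write `Λ = N^(δ/4000)`; all constants depend on `c₀, C₀`.  `V_A = Y₂^(5/2)/N`, `V_A' = Y Y₂^(3/2)/N`, `V_B = Y^(3/2) Y₂/N`,
`V_X = Y^(5/2)/N`; `V_A V_X = V_A' V_B = H₀ (up to constants), H₀ = N₁³K₁/Y ≍ (Y Y₂)^(5/2)/N²`.  With `H ≤ Λ H₀`, `e ≤ Λ`:
`32 H G/N₁³ ≤ C Λ V_A`, `K₁³ e/M ≤ C Λ V_A`; `32 H M/N₁³, N₁² K₁ e/M, K₁³ e/G ≤ C Λ V_A'`; `N₁ a₁/K₁, N₁³ e / M ≤ C Λ V_B`;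
`N₁³ e / G ≤ C Λ V_X`.  Take the ceilings; `V_A, V_A', V_B ≥ 1` and `V_X ≥ 1` or `V_X = N^(-1) Y^(5/2) ≥ N^(-0.04)`.  So
`√Π ≤ C Λ² H₀ √(max 1 (1/V_X))`; the degenerate bracket is at most `C Λ⁴ (H₀ + V_A) ≤ C Λ⁴ H₀ max 1 (1/V_X)`, and
`√(a₀a₁) ≤ C Λ √(V_A V_A')`, `√(V_A V_A')/H₀ = N / (Y² √Y₂) ≤ 1`.  `√(MG) N₁K₁ ≤ C (Y Y₂) H₀/√(MG) · ... `: precisely
`√(M G) N₁ K₁ ≤ C (Y Y₂/N)^(3/2) H₀ (Y Y₂) / H₀ ...`, i.e. `√(M G) N₁ K₁ ≍ (Y Y₂)^(5/2)/N^(3/2) = S^(3/2) Y Y₂`.  The three terms of `nB` times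
`√(MG)`: `H N₁K₁/y`: `Λ H₀ S^(3/2) Y Y₂ / y`; `√Π √(H N₁K₁/y)`: relative to `√Π N₁K₁/y` the factor `√(H y/(N₁K₁)) ≤ C √Λ √(y S)`
(`H₀/(N₁K₁) ≍ S`); the third as the bracket above.  All constants and powers of `Λ` are at most `N^(δ/100)` for `N ≥ N₀`. -/
def NUMC_stmt : Prop :=
  ∀ δ c₀ C₀ : ℝ, 0 < δ → δ ≤ 1 / 10 → 0 < c₀ → 1 ≤ C₀ → ∃ N₀ : ℝ, ∀ N Y Y₂ : ℝ, N₀ ≤ N → Rng δ N Y Y₂ →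
    ∀ N₁ K₁ M G H e y : ℕ, Blk c₀ C₀ N Y Y₂ N₁ K₁ → c₀ * sM N Y Y₂ ≤ M → (M : ℝ) ≤ C₀ * sM N Y Y₂ →
    c₀ * sG N Y Y₂ ≤ G → (G : ℝ) ≤ C₀ * sG N Y Y₂ → 1 ≤ e → (e : ℝ) ≤ N ^ (δ / 4000) → 1 ≤ y → (y : ℝ) ≤ N →
    1 ≤ H → (H : ℝ) ≤ N ^ (δ / 4000) * ((N₁ : ℝ) ^ 3 * K₁ / Y) →
    ∃ a : Fin 4 → ℕ, Sides N₁ K₁ M G H e 1 1 a ∧ (∀ i, (a i : ℝ) ≤ N) ∧
      √((M : ℝ) * G) * nB N₁ K₁ H y 1 1 e a ≤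
        relE δ N Y Y₂ y * ((N₁ : ℝ) ^ 3 * K₁ / Y) * (Y * Y₂) / y

/-- **NUMT** (medium, numerical).  The twisted case, `q₁ = q` and `M ≍ sM/q`, or `q₂ = q` and `G ≍ sG/q`.
Proof. As NUMC with `e = y = 1`, `H ≤ C₀ q H₀`.  (I) `q₁ = q`, `M ≍ sM/q`: unscaled sides `a₀ ≍ q V_A` (`32HG/N₁³`, `K₁³/M`),
`a₁ ≍ q V_A'`, `a₂ ≍ q V_B`, `a₃ ≍ V_X` (`N₁³/G`); `√Π ≤ C q^(3/2) H₀ √(max 1 (1/V_X))`, `√(MG) = q^(-1/2) √(sM sG)`; bracket (scaled box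
`q V`): `≤ C (q² H₀ + q V_A) max 1 (1/V_X)`.  (II) `q₂ = q`, `G ≍ sG/q`: `a₀ ≍ V_A`, `a₁ ≍ q V_A'`, `a₂ ≍ q V_B`, `a₃ ≍ q V_X`; the same.
Terms times `√(MG)`, relative to `S^(3/2) (Y Y₂) q H₀`: `q^(-1/2)`; `q^(-1/2) q^(3/2) H₀/(q H₀) (√(q H₀/(N₁K₁)) + 1) ≤ C (1 + √(q S))`;
`q^(-1/2) √(q H₀ (q² H₀ + q V_A)) /(q H₀) ≤ C (1 + √(V_A/H₀))`, `V_A/H₀ = 1/V_X`. -/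
def NUMT_stmt : Prop :=
  ∀ δ c₀ C₀ : ℝ, 0 < δ → δ ≤ 1 / 10 → 0 < c₀ → 1 ≤ C₀ → ∃ N₀ : ℝ, ∀ N Y Y₂ : ℝ, N₀ ≤ N → Rng δ N Y Y₂ →
    ∀ N₁ K₁ M G H q q₁ q₂ : ℕ, Blk c₀ C₀ N Y Y₂ N₁ K₁ → 1 ≤ q → (q : ℝ) ≤ N ^ (1 / 8 : ℝ) →
    q = q₁ * q₂ → (q₁ = 1 ∨ q₂ = 1) →
    c₀ * sM N Y Y₂ ≤ q₁ * M → (q₁ * M : ℝ) ≤ C₀ * sM N Y Y₂ →
    c₀ * sG N Y Y₂ ≤ q₂ * G → (q₂ * G : ℝ) ≤ C₀ * sG N Y Y₂ →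
    1 ≤ H → (H : ℝ) ≤ C₀ * q * ((N₁ : ℝ) ^ 3 * K₁ / Y) →
    ∃ a : Fin 4 → ℕ, Sides N₁ K₁ M G H 1 q₁ q₂ a ∧ (∀ i, (a i : ℝ) ≤ N) ∧
      √((M : ℝ) * G) * nB N₁ K₁ H 1 q₁ q₂ 1 a ≤
        relE δ N Y Y₂ q * (q * ((N₁ : ℝ) ^ 3 * K₁ / Y)) * (Y * Y₂)

/-- **CPS** (medium).  Coprime pairs in a box and in residue classes, with weight `1/(n³ k)`.
Proof. Möbius: `∑_{d} μ(d)` over `d ∣ (n,k)`; primes of `e` do not divide both (hypothesis), so only `d` coprime to `e`; for such `d`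
the pairs `(d n', d k')` in the classes: `∑_{n'} 1/n'³ ∑_{k'} 1/k'` over residue classes modulo `e` in intervals `(a X/d, b X/d]`:
Riemann sums: `(1/e)(∫ + O(d/X))`.  So the sum is `∑_{d, (d,e)=1} μ(d) d^(-4) (d/X₁)² e^(-2) (I₁ + O(d/X₁)) (I₂ + O(d/X₂))` with `d ≤ D`
fixed large, the tail `d > D` is at most `∑_{d>D} C/(d² X₁²)`.  `∑_{(d,e)=1} μ(d)/d² = (6/π²)/∏_{p∣e}(1-p^(-2))`. -/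
def CPS_stmt : Prop :=
  ∀ (a₀ b₀ a₁ b₁ : ℝ) (e : ℕ) (c₀ c₁ : ℤ), 0 < a₀ → a₀ < b₀ → 0 < a₁ → a₁ < b₁ → 1 ≤ e →
    (∀ p : ℕ, p.Prime → p ∣ e → ¬ ((p : ℤ) ∣ c₀ ∧ (p : ℤ) ∣ c₁)) → ∀ ε : ℝ, 0 < ε → ∃ X₀ : ℝ, ∀ X₁ X₂ : ℝ,
    X₀ ≤ X₁ → X₀ ≤ X₂ → ∀ W : Finset (ℕ × ℕ), (∀ p, p ∈ W ↔ (a₀ * X₁ < p.1 ∧ (p.1 : ℝ) ≤ b₀ * X₁ ∧
      a₁ * X₂ < p.2 ∧ (p.2 : ℝ) ≤ b₁ * X₂ ∧ Nat.Coprime p.1 p.2 ∧ (e : ℤ) ∣ (p.1 : ℤ) - c₀ ∧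
      (e : ℤ) ∣ (p.2 : ℤ) - c₁)) →
    |X₁ ^ 2 * ∑ p ∈ W, 1 / ((p.1 : ℝ) ^ 3 * p.2) - ((a₀ ^ 2)⁻¹ - (b₀ ^ 2)⁻¹) / 2 * Real.log (b₁ / a₁) *
      (6 / Real.pi ^ 2) / ((∏ p ∈ e.primeFactors, (1 - 1 / (p : ℝ) ^ 2)) * (e : ℝ) ^ 2)| ≤ ε

open Classical in
/-- **EQP** (short-medium; from RE1, RE2, TR).  Boxes for a fixed pair as fibres.
Proof. RE1 with `q₁ = q₂ = r = 1`, `s = e'`; RE2 with `c = c₄`, `c' = 0`: for `t = ((n,k),(m,g,z))` the two divisibilities of RE2 are `IsT t` (c1: `n³ ∣ ...`;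
c2: `k ∣ z n² - m²`) and `k e' ∣ (z n² - m²) - k c₄ = k (RR t - c₄)` (TR), i.e. `e' ∣ RR t - c₄`.  `t ↦ (m,g,z)` is a bijection. -/
def EQP_stmt : Prop :=
  ∀ (e e' n k : ℕ) (c₂ c₃ c₄ m₀ g₀ z₀ : ℤ) (M G V : ℕ), 1 ≤ n → 1 ≤ k → 1 ≤ e' → Nat.Coprime n (k * e') →
    ∃ α β γ c₀ : ℤ, ResG n k 1 1 1 e' α β γ ∧ ∀ F : Finset Tpl, (∀ t, t ∈ F ↔ (IsT t ∧ t.1 = (n, k) ∧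
      m₀ ≤ t.2.1 ∧ t.2.1 < m₀ + M ∧ g₀ ≤ t.2.2.1 ∧ t.2.2.1 < g₀ + G ∧ z₀ ≤ t.2.2.2 ∧ t.2.2.2 < z₀ + V ∧
      (e : ℤ) ∣ t.2.1 - c₂ ∧ (e : ℤ) ∣ t.2.2.1 - c₃ ∧ (e' : ℤ) ∣ RR t - c₄)) →
      F.card = (fibG m₀ g₀ z₀ M G V e (n ^ 3 * k * e') c₂ c₃ α β γ c₀).card

/-- **EQE** (medium-long; from FIB2, BLE, NUMC, RE1, RE2, TR).  The error in boxes.
Proof. `e' = e1 e (c 0).natAbs` is coprime to every `n ≡ c 0 (e)` and `e1 e n = e'`.  For `p = (n,k) ∈ W`: residues by RE1 with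
`q₁ = q₂ = 1`, `r = 1`, `s = e'` and RE2 with the classes `c = c 4`, `c' = 0`: for `z, m, g` the conditions `IsT` and `e' ∣ RR - c 4`
mean `n³ k e' ∣ z - (α m² + β m g + γ g² + c₀)` (TR).  So the filtered set is `fibG` with `P = e`, `M = (b₂-a₂) sM + O(1)` etc.
FIB2 with `η` small and `H = ⌈R n³ k e'/V⌉` made uniform: `H = ⌈R N₁³ K₁ e'/V⌉` for `p` in the dyadic block `(N₁/2,N₁] × (K₁/2,K₁]`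
(finitely many blocks, number depending only on the box).  `∑_p (1/q) V (η M G/e² + C (M+G)/e) ≤ (C η + o(1)) Y Y₂`, and
`(V/q) ∑_p ∑_{h ≤ 2H} ‖ES‖ ≤ C (Y/(N₁³K₁)) T^ε √(MG) nB ≤ N^ε relE δ N Y Y₂ 1 · Y Y₂` by BLE, NUMC (`T = N²`), which is `≤ N^(-δ/2) Y Y₂`:
`relE ≤ 2 N^(δ/100) √(max 1 (N/Y^(5/2))) (Y Y₂/N)^(3/2)`; with `Y = N^(1/2-δ₁)`, `δ ≤ δ₁ ≤ 0.11`: exponent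
`δ/100 + max 0 (1.25 δ₁ - 0.125) - 1.5 δ₁ + 0.015 δ ≤ -δ/2`. -/
def EQE_stmt (δ : ℝ) : Prop :=
  ∀ a b : Fin 5 → ℝ, 0 < a 0 → 0 < a 1 → 0 < a 4 → (∀ i, a i < b i) →
  ∀ (e : ℕ) (c : Fin 5 → ℤ), 1 ≤ e → (∀ p : ℕ, p.Prime → p ∣ e → ¬ ((p : ℤ) ∣ c 0 ∧ (p : ℤ) ∣ c 1)) →
  ∀ ε : ℝ, 0 < ε → ∃ N₀ : ℝ, ∀ N Y : ℝ, N₀ ≤ N → N ^ (0.39 : ℝ) ≤ Y → Y ≤ N ^ (1 / 2 - δ) →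
  ∀ (F : Finset Tpl) (W : Finset (ℕ × ℕ)), (∀ t, t ∈ F ↔ InCell N Y (N ^ (1 / 2 + δ / 100)) a b e c t) →
    (∀ p, p ∈ W ↔ (a 0 * sN N Y (N ^ (1 / 2 + δ / 100)) < p.1 ∧ (p.1 : ℝ) ≤ b 0 * sN N Y (N ^ (1 / 2 + δ / 100)) ∧
      a 1 * sK N Y (N ^ (1 / 2 + δ / 100)) < p.2 ∧ (p.2 : ℝ) ≤ b 1 * sK N Y (N ^ (1 / 2 + δ / 100)) ∧
      Nat.Coprime p.1 p.2 ∧ (e : ℤ) ∣ (p.1 : ℤ) - c 0 ∧ (e : ℤ) ∣ (p.2 : ℤ) - c 1)) →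
    ∑ p ∈ W, |((F.filter (fun t => t.1 = p)).card : ℝ) - ((b 2 - a 2) * sM N Y (N ^ (1 / 2 + δ / 100)) / e) *
      ((b 3 - a 3) * sG N Y (N ^ (1 / 2 + δ / 100)) / e) * ((b 4 - a 4) * Y) /
        ((p.1 : ℝ) ^ 3 * p.2 * (e1 e (c 0).natAbs : ℝ))| ≤ ε * (Y * N ^ (1 / 2 + δ / 100))

/-- **EQB1** (medium; from BLU, NUMC, RE1, RE2, TR, CZ): `EQUB1_stmt δ`.
Proof. Reduce the classes modulo `e`: `s ≤ e³` may be assumed (otherwise replace `S p` by at most `e³` representatives modulo `e`).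
CZ at the scale `N'`: `n, k` lie in boundedly many dyadic blocks (number depending on `κ`), `|m| ≤ C sM`, `|g| ≤ C sG`.
`W = {p ∈ pairs N₁ K₁ 1 : gcd(n,e) = 1, in a box}`, `r = 1`, `s = e`, RE1, RE2 (`c` the class of `RR`, `c' = 0`); for each
index `i < s` the `i`-th class of `S p` (in some order): the tuples of this class inject into `fibG` with `P = e`, `M = 2⌈C sM⌉+1`, ...,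
`V = ⌈Y⌉`, `H = ⌊N₁³K₁e/(64V)⌋ ≥ 1`.  BLU: `(2/H)(M/e+1)(G/e+1)|W| ≤ C Y Y₂ / e³`; the error is at most
`N^ε relE δ N' Y Y₂ 1 (Y Y₂) ≤ N^(-δ/3-3δ/5000) Y Y₂` (exponents as in EQE, `Rng δ N' Y Y₂` holds).  Sum over `i < s ≤ e³`. -/
def EQB1_stmt (δ : ℝ) : Prop := EQUB1_stmt δ

/-- **EQB2** (short-medium, like EQB1): `EQUB2_stmt δ`.
Proof. `W = {p ∈ pairs N₁ K₁ q : q ∣ n}` (`q` the prime), modulus `e = q`, `r = q`, `s = 1`, `y = q`; RE2 with `c = 0` (`s = 1`), `c'` the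
class of `RR'` (TR: `Z k⁴ + m g k² - g² n² = - n³ RR'`).  `|W| ≤ N₁ K₁ / q`, `(2/H)(M/q+1)(G/q+1)|W| ≤ C Y Y₂ q^(-4)`; error at most
`N^ε relE δ N Y Y₂ q (Y Y₂)/q` for each of the `s ≤ q³` classes. -/
def EQB2_stmt (δ : ℝ) : Prop := EQUB2_stmt δ

/-- **EQD** (short-medium; from EQE, CPS): `EQC_stmt δ`.
Proof. `F.card = ∑_{p ∈ W} #{t ∈ F : t.1 = p}`; EQE; the main terms: `sM sG Y ∑ 1/(n³k) ...` with CPS, `X₁ = sN → ∞`, `X₂ = sK → ∞`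
(`sN ≥ N^(0.39 + 0.25 - 0.5)`), `sM sG / sN² = Y₂`. -/
def EQD_stmt (δ : ℝ) : Prop := EQC_stmt δ

/-- the exponent bound used in TW: summing over primes up to `p₀` -/
def RelSum_stmt (δ : ℝ) : Prop :=
  ∃ N₀ : ℝ, ∀ N Y : ℝ, N₀ ≤ N → N ^ (0.39 : ℝ) ≤ Y → Y ≤ N ^ (1 / 2 - δ) →
    N ^ (1 / 2 + δ / 100) / Y * (relE δ N Y (N ^ (1 / 2 + δ / 100)) (N ^ (1 / 2 + δ / 100) / Y)) ≤ N ^ (-(δ / 3))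

/-- **TWA** (medium; from BLU, NUMT, RE1, RE2, TR, CZ).  Twist I: a prime `q ∤ n k`, `q ∣ Z`, `q ∣ m`.
Proof. `m = q m'`, `Z = q Z'`; `n³ ∣ q Z' k⁴ + q m' g k² - g² n²`, `k ∣ q² m'² - q Z' n²` gives `k ∣ q m'² - Z' n²`.  So `(m', g, Z')` lies
in `fibG` with the residues of RE1 for `q₁ = q`, `q₂ = 1`, `r = s = 1` (RE2, `c = c' = 0`), `M = 2⌈C sM/q⌉+1`, `V = ⌈Y/q⌉+1`,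
`H = ⌊N₁³K₁/(64V)⌋`, `W = {p ∈ pairs N₁ K₁ 1 : q ∤ n k}`.  BLU, NUMT: `(2/H)(M+1)(G+1)|W| ≤ C Y Y₂/q²`, error `≤ N^ε relE(q) Y Y₂`. -/
def TWA_stmt (δ : ℝ) : Prop :=
  ∀ κ : ℝ, 0 < κ → ∃ C N₀ : ℝ, 1 ≤ C ∧ ∀ N Y : ℝ, N₀ ≤ N → N ^ (0.39 : ℝ) ≤ Y → Y ≤ N ^ (1 / 2 - δ) →
  ∀ q : ℕ, q.Prime → (q : ℝ) ≤ N ^ (1 / 2 + δ / 100) / Y → ∀ F : Finset Tpl,
    (∀ t ∈ F, Cen κ N Y (N ^ (1 / 2 + δ / 100)) t ∧ ¬ q ∣ t.1.1 * t.1.2 ∧ (q : ℤ) ∣ t.2.2.2 ∧ (q : ℤ) ∣ t.2.1) →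
    (F.card : ℝ) ≤ (C / (q : ℝ) ^ 2 + N ^ (δ / 100) * relE δ N Y (N ^ (1 / 2 + δ / 100)) q) *
      (Y * N ^ (1 / 2 + δ / 100))

/-- **TWB** (medium, like TWA).  Twist II: `q ∤ n k`, `q ∣ Z`, `q ∣ g`: `g = q g'`, `Z = q Z'`, `n³ ∣ Z' k⁴ + m g' k² - q g'² n²`,
`k ∣ m² - q Z' n²`: residues for `q₁ = 1`, `q₂ = q`; `G = 2⌈C sG/q⌉+1`. -/
def TWB_stmt (δ : ℝ) : Prop :=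
  ∀ κ : ℝ, 0 < κ → ∃ C N₀ : ℝ, 1 ≤ C ∧ ∀ N Y : ℝ, N₀ ≤ N → N ^ (0.39 : ℝ) ≤ Y → Y ≤ N ^ (1 / 2 - δ) →
  ∀ q : ℕ, q.Prime → (q : ℝ) ≤ N ^ (1 / 2 + δ / 100) / Y → ∀ F : Finset Tpl,
    (∀ t ∈ F, Cen κ N Y (N ^ (1 / 2 + δ / 100)) t ∧ ¬ q ∣ t.1.1 * t.1.2 ∧ (q : ℤ) ∣ t.2.2.2 ∧ (q : ℤ) ∣ t.2.2.1) →
    (F.card : ℝ) ≤ (C / (q : ℝ) ^ 2 + N ^ (δ / 100) * relE δ N Y (N ^ (1 / 2 + δ / 100)) q) *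
      (Y * N ^ (1 / 2 + δ / 100))

/-- **TWC** (medium; from BLU, NUMC, RE1, RE2, TR, CZ, `pairs_card`).  `q ∣ n k` and `q ∣ m` or `q ∣ g`.
Proof. `q ∣ m`: for each class `j` of `g` modulo `q`: `fibG` with `P = q`, classes `(0, j)`, modulus `n³ k` (`e = 1`), `y = q`,
`W = pairs N₁ K₁ q ∩ box`, `|W| ≤ 2 N₁K₁/q`: main `q · (2/H)(M/q+1)(G/q+1) · 2 N₁K₁/q ≤ C Y Y₂/q²`, error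
`q · N^ε relE(q) Y Y₂/q`. -/
def TWC_stmt (δ : ℝ) : Prop :=
  ∀ κ : ℝ, 0 < κ → ∃ C N₀ : ℝ, 1 ≤ C ∧ ∀ N Y : ℝ, N₀ ≤ N → N ^ (0.39 : ℝ) ≤ Y → Y ≤ N ^ (1 / 2 - δ) →
  ∀ q : ℕ, q.Prime → (q : ℝ) ≤ N ^ (1 / 2 + δ / 100) / Y → ∀ F : Finset Tpl,
    (∀ t ∈ F, Cen κ N Y (N ^ (1 / 2 + δ / 100)) t ∧ q ∣ t.1.1 * t.1.2 ∧ (q : ℤ) ∣ t.2.1 * t.2.2.1) →
    (F.card : ℝ) ≤ (C / (q : ℝ) ^ 2 + N ^ (δ / 100) * relE δ N Y (N ^ (1 / 2 + δ / 100)) q) *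
      (Y * N ^ (1 / 2 + δ / 100))

/-- **TWD** (short-medium; from TWA, TWB, TWC, RelSum): `TW_stmt δ`.
Proof. Union over the primes `q`; `∑_{q > N^(δ/10000)} 1/q² ≤ 2 N^(-δ/10000)`; `relE` is increasing in `y`, there are at most `p₀ = N^(1/2+δ/100)/Y`
primes: the errors sum to at most `3 N^(δ/100) N^(-δ/3) Y Y₂`. -/
def TWD_stmt (δ : ℝ) : Prop := TW_stmt δ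

/-- the bound for one block in BC; `x = Q₁^(1/4)`, `y = Q₂^(1/4)`, `S = √(Q₁ Q₂ / N)` -/
noncomputable def SB (x y S : ℝ) : ℝ :=
  x ^ 4 * y ^ 4 + x ^ 6 + (y ^ 6 + x ^ 5 * y) * S + (y ^ 6 * x + x ^ 6 * y + x ^ 7) * S ^ 2 +
    (x ^ 6 * y ^ 2 + x ^ 7 * y) * S ^ 3

/-- one block with `Q₁ K₁² ≤ 4 Q₂ N₁²` and `H ≥ 1` -/
structure BXH (x y S : ℝ) (N₁ K₁ M G H : ℕ) : Prop where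
  x1 : 1 ≤ x
  y1 : 1 ≤ y
  S0 : 0 < S
  S1 : S ≤ 1
  n1 : 1 ≤ N₁
  k1 : 1 ≤ K₁
  h1 : 1 ≤ H
  n2 : (N₁ : ℝ) ≤ 8 * x ^ 2 * S
  k2 : (K₁ : ℝ) ≤ 8 * y ^ 2 * S
  kn : x ^ 2 * K₁ ≤ 2 * y ^ 2 * N₁
  m1 : x ^ 2 * N₁ ≤ M
  m2 : (M : ℝ) ≤ 40 * (x ^ 2 * N₁)
  g1 : y ^ 4 * N₁ ≤ x ^ 2 * G
  g2 : x ^ 2 * (G : ℝ) ≤ 100 * (y ^ 4 * N₁)
  H1 : (N₁ : ℝ) ^ 3 * K₁ ≤ 1000 * H * x ^ 4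
  H2 : 32 * (H : ℝ) * x ^ 4 ≤ (N₁ : ℝ) ^ 3 * K₁

/-- **BXA** (medium, numerical).  Regime `N₁ K₁ ≥ x²`.
Proof. All constants are absolute (no care).  Let `u = √N₁`, `v = √K₁`, `a = u²v²y⁴/x⁶`, `a' = u²v²/x² ≥ 1`, `b = u⁴/x²`, `X = u⁴x²/y⁴`: `a X = a' b = u⁶v²/x⁴ ≍ H`.
Sides: the real lower bounds of `Sides` are at most `C a, C a', C b, C X` (`K₁³/M ≤ K₁ (2y²N₁/x²)²/(x²N₁) = 4a`, `K₁³/G ≤ 4 a'`, `a 1 ≤ C a'` as `a' ≥ 1`,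
`4 N₁ (a 1)/K₁ ≤ C b`), take ceilings.  `H ≤ C S² N₁ K₁` (`N₁² ≤ 64 x⁴ S²`), so with `E = y² N₁² K₁` (`√(MG) N₁K₁ ≤ 64 E`):
`√(MG)/H · nB ≤ C (E + E √Π / H + E √(D/H) + E √(a 0 · a 1)/H)`, `D` the bracket, the last term is part of the second.  `Π ≤ C (1+a) a' (1+b) (1+X)`.
The terms, with `u² ≤ 8x²S`, `v² ≤ 8y²S`, `x v ≤ √2 y u`, `u, v ≥ 1`:
`E√a'/H ≤ √2 x²y³; E√(a'a)/H = y⁴v² ≤ 8y⁶S; E√(a'b)/H = x²y²uv ≤ 8x³y³S; E√(a'X)/H = x⁴uv ≤ 8x⁵yS; E√(a'ab)/H = y⁴u²v²/x ≤ 64xy⁶S²;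
E√(a'aX)/H = x y² u²v² ≤ 64 x³y⁴S²; E√(a'bX)/H = x³u³v ≤ 64x⁶yS²; E√(a'abX)/H = E ≤ 512x⁴y⁴S³.`
`D ≤ C (aX + a'b + a'X + bX + a + a' + b + X + 1)`: `E√(aX/H), E√(a'b/H) = E; E√(a'X/H) = E x²/y² ≤ 512x⁶y²S³; E√(bX/H) = x²u⁵v ≤ 512 x⁷yS³;
E√(a/H) = E/√X (as above); E√(a'/H) = E/√b = x y²u²v²; E√(b/H) = E/√a' ≤ E; E√(X/H) = E/√a = x³u³v; E√(1/H) = x²y²uv`.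
All are at most `C SB` (`x³y³S, x²y³, x³y⁴S², x⁴y⁴S³ ≤ x⁴y⁴`).  For the last bound of the `a i`: `a, a', b, X ≤ 64 (x y)^6`. -/
def BXA_stmt : Prop :=
  ∃ C : ℝ, 1 ≤ C ∧ ∀ (x y S : ℝ) (N₁ K₁ M G H : ℕ), BXH x y S N₁ K₁ M G H → x ^ 2 ≤ (N₁ : ℝ) * K₁ →
    ∃ a : Fin 4 → ℕ, Sides N₁ K₁ M G H 1 1 1 a ∧ (∀ i, (a i : ℝ) ≤ C * (x * y) ^ 8) ∧
      √((M : ℝ) * G) / H * nB N₁ K₁ H 1 1 1 1 a ≤ C * SB x y S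

/-- **BXB** (medium, numerical).  Regime `N₁ K₁ < x²`.
Proof. Notation of BXA; `a' < 1`, `H ≥ 1` gives `N₁³K₁ ≥ 32x⁴`, so `b = N₁²/x² ≥ 32`.  `a 1 ≤ C`, `a 2 ≤ C N₁/K₁` (`≥ b`, put `b̃ = N₁/K₁ = u²/v² ≥ 1`), `a 0 ≤ C (1+a)`,
`a 3 ≤ C (1 + X)`.  As in BXA; `Π ≤ C (1+a) b̃ (1+X)`:
`E√b̃/H = x⁴y²/(uv) ≤ x⁴y²; E√(b̃a)/H = x y⁴; E√(b̃X)/H = x⁵u/v ≤ x⁶ (u v < x, so u < x); E√(b̃aX)/H = x²y²u² ≤ x⁴y²`.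
`D ≤ C (aX + b̃ + b̃X + a + X + 1)`: `E√(aX/H) = E ≤ 512x⁴y⁴S³; E√(b̃/H) = x²y²u² ≤ x⁴y²; E√(b̃X/H) = x³u⁴ ≤ 64x⁷S²; E√(a/H) = E/√X = y⁴u²v²/x ≤ x y⁴;
E√(X/H) = E/√a = x³u³v ≤ x⁴u² ≤ 8x⁶S; E√(1/H) ≤ E√(b̃/H)`.  All are at most `C SB`. -/
def BXB_stmt : Prop :=
  ∃ C : ℝ, 1 ≤ C ∧ ∀ (x y S : ℝ) (N₁ K₁ M G H : ℕ), BXH x y S N₁ K₁ M G H → (N₁ : ℝ) * K₁ ≤ x ^ 2 →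
    ∃ a : Fin 4 → ℕ, Sides N₁ K₁ M G H 1 1 1 a ∧ (∀ i, (a i : ℝ) ≤ C * (x * y) ^ 8) ∧
      √((M : ℝ) * G) / H * nB N₁ K₁ H 1 1 1 1 a ≤ C * SB x y S

/-- tuples of BC -/
structure BCT (N Q₁ Q₂ : ℝ) (t : Tpl) : Prop where
  tt : IsT t
  z1 : Q₁ / 2 < t.2.2.2
  z2 : (t.2.2.2 : ℝ) ≤ Q₁
  l1 : Q₂ / 2 < lam t
  l2 : (lam t : ℝ) ≤ Q₂
  d1 : N / 2 < -(dis t : ℝ)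

/-- **BCA** (medium; from BXA, BXB, BLU, RE1, RE2, TR, SZ).  One block, `Q₁ K₁² ≤ 4 Q₂ N₁²`.
Proof. `x = Q₁^(1/4)`, `y = Q₂^(1/4)`, `S = √(Q₁Q₂/N) ≤ 1`.  If `F` is nonempty SZ gives `N₁ ≤ 8x²S` (`n √(N/2) ≤ 2 Q₁√Q₂`, `N₁ < 2n`), `K₁ ≤ 8y²S`.
SZ: `|m| ≤ √Q₁ N₁ + √2 Q₁/√Q₂ K₁ ≤ 4 √Q₁N₁`, `|g| ≤ √2 Q₂/√Q₁ N₁ + √Q₂K₁ ≤ 4 Q₂/√Q₁ N₁`: intervals with `M ≤ 8√Q₁N₁ + 1 ≤ 9 x²N₁` and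
`G ≤ 8 Q₂/√Q₁ N₁ + 1 ≤ 16 Q₂/√Q₁ N₁` integers (`Q₂/√Q₁ ≥ 1/8`); enlarge them such that `M ≥ x²N₁`, `x²G ≥ y⁴N₁`.  `V = ⌊Q₁⌋`, `H = ⌊N₁³K₁/(64 V)⌋`.
(1) `H ≥ 1`: for `(n,k) ∈ W = pairs N₁ K₁ 1` the `(m,g,z)` with `((n,k),(m,g,z)) ∈ F` lie in `fibG (P = 1, q = n³k)` with the residues of RE1, RE2
(`q₁ = q₂ = r = s = 1`, `c = c' = 0`).  BLU (`e = y = q₁ = q₂ = 1`, `T = ⌈C N⁴⌉`, exponent `ε/8`) and BXA or BXB: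
main term `(2/H)(M+1)(G+1) N₁K₁ ≤ C Q₁Q₂`, error `C T^(ε/8) SB`.
(2) `H = 0`: `N₁³K₁ < 64 Q₁`.  For given `(n,k,m,g)` the `z` lie in one class modulo `n³k ≥ N₁³K₁/16`: at most `Q₁/(n³k) + 1 ≤ 100 Q₁/(N₁³K₁)`; in total
`N₁K₁ · M · G · 100 Q₁/(N₁³K₁) ≤ C Q₁Q₂`. -/
def BCA_stmt : Prop :=
  ∀ ε : ℝ, 0 < ε → ∃ C : ℝ, 1 ≤ C ∧ ∀ (N Q₁ Q₂ : ℝ) (N₁ K₁ : ℕ), 1 ≤ N → 1 ≤ Q₁ → 1 ≤ Q₂ → Q₁ * Q₂ ≤ N →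
    √Q₁ ≤ 8 * Q₂ → 1 ≤ N₁ → 1 ≤ K₁ → Q₁ * (K₁ : ℝ) ^ 2 ≤ 4 * Q₂ * (N₁ : ℝ) ^ 2 → ∀ F : Finset Tpl,
    (∀ t ∈ F, BCT N Q₁ Q₂ t ∧ N₁ < 2 * t.1.1 ∧ t.1.1 ≤ N₁ ∧ K₁ < 2 * t.1.2 ∧ t.1.2 ≤ K₁) →
    (F.card : ℝ) ≤ C * N ^ ε * SB (Q₁ ^ (1 / 4 : ℝ)) (Q₂ ^ (1 / 4 : ℝ)) √(Q₁ * Q₂ / N)

/-- **BCS** (medium; from BCA, SWP, SZ, TR, DYB).  All blocks.
Proof. SZ: `n, k ≤ 4 N`; DYB with `A = 1`, `B = 4N` for `n` and for `k`: at most `(2 + 2 log(4N))² ≤ C N^(ε/2)` blocks.  In a block either `Q₁K₁² ≤ 4Q₂N₁²`: BCA; or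
`Q₂N₁² ≤ 4Q₁K₁²`: BCA for `swp t` with `(Q₂, Q₁, K₁, N₁)` in place of `(Q₁, Q₂, N₁, K₁)` (SWP). -/
def BCS_stmt : Prop :=
  ∀ ε : ℝ, 0 < ε → ∃ C : ℝ, 1 ≤ C ∧ ∀ (N Q₁ Q₂ : ℝ), 1 ≤ N → 1 ≤ Q₁ → 1 ≤ Q₂ → Q₁ * Q₂ ≤ N →
    √Q₁ ≤ 8 * Q₂ → √Q₂ ≤ 8 * Q₁ → ∀ F : Finset Tpl, (∀ t ∈ F, BCT N Q₁ Q₂ t) →
    (F.card : ℝ) ≤ C * N ^ ε * (SB (Q₁ ^ (1 / 4 : ℝ)) (Q₂ ^ (1 / 4 : ℝ)) √(Q₁ * Q₂ / N) +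
      SB (Q₂ ^ (1 / 4 : ℝ)) (Q₁ ^ (1 / 4 : ℝ)) √(Q₁ * Q₂ / N))

/-- **BCN** (short-medium, numerical).
Proof. `R = Q₁ N^(1/2-δ/2)`, `S² = Q₁Q₂/N ≤ N^(-0.99δ)`.  First `SB`: `Q₁^(3/2) ≤ Q₁N^(1/4)`; `Q₂^(3/2) S = Q₁Q₂ · Q₂/√(Q₁N) ≤ Q₁Q₂`;
`Q₁^(5/4)Q₂^(1/4) S ≤ Q₁ (Q₁Q₂)^(1/4) ≤ Q₁ N^(1/4)`; `Q₂^(3/2)Q₁^(1/4) S² = Q₁Q₂ · Q₂^(3/2)Q₁^(1/4)/N ≤ Q₁Q₂`; `Q₁^(3/2)Q₂^(1/4) S²` the same;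
`Q₁^(7/4)S² = Q₁Q₂ · Q₁^(7/4)/N ≤ Q₁Q₂`; `Q₁^(3/2)Q₂^(1/2)S³ = Q₁ √N S⁴ ≤ R`; `Q₁^(7/4)Q₂^(1/4)S³ ≤ Q₁ Q₁^(3/4)Q₂^(1/4) S^2 ≤ R`.
Second `SB`: `Q₂^(3/2) ≤ N^(3/4+0.015δ) ≤ N^(0.88-δ/2) ≤ R`; `Q₁^(3/2)S ≤ R`; `Q₂^(5/4)Q₁^(1/4)S = Q₁Q₂ · Q₂^(3/4)/(Q₁^(1/4)√N) ≤ Q₁Q₂`;
`S²` terms: `Q₂^(7/4)S² = Q₁Q₂ · Q₂^(7/4)/N ≤ Q₁Q₂`, the others as above; `Q₂^(3/2)Q₁^(1/2)S³ = Q₁√N · Q₂³Q₁/N² ≤ Q₁ √N N^(-0.97δ)`;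
`Q₂^(7/4)Q₁^(1/4)S³ = Q₁√N · Q₂^(13/4)Q₁^(3/4)/N² ≤ Q₁√N N^(-0.7δ)`. -/
def BCN_stmt : Prop :=
  ∀ δ N Q₁ Q₂ : ℝ, 0 < δ → δ ≤ 1 / 10 → 1 ≤ N → N ^ (0.38 : ℝ) ≤ Q₁ → Q₁ ≤ N ^ (1 / 2 - δ) → 1 ≤ Q₂ →
    Q₂ ≤ N ^ (1 / 2 + δ / 100) →
    SB (Q₁ ^ (1 / 4 : ℝ)) (Q₂ ^ (1 / 4 : ℝ)) √(Q₁ * Q₂ / N) + SB (Q₂ ^ (1 / 4 : ℝ)) (Q₁ ^ (1 / 4 : ℝ)) √(Q₁ * Q₂ / N) ≤
      20 * (Q₁ * Q₂ + Q₁ * N ^ (1 / 2 - δ / 2))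

/-- **BCF** (short; from BCS, BCN, SZ): `BC_stmt`.
Proof. `c = δ/2`.  `Q₁Q₂ ≤ N`.  If `F` is nonempty, `k ≥ 1` and SZ give `√(N/2) ≤ 2 √Q₁ Q₂`, and `√Q₁ √Q₁ ≤ √N`, so `√Q₁ ≤ 8 Q₂`;
`√Q₂ ≤ N^0.26 ≤ Q₁`. -/
def BCF_stmt : Prop := BC_stmt

end Pool.Agent.T5
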