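import Pool.Agent.helper95.T5.AllE
import Pool.Agent.helper8.T5.AsmU
import Pool.Agent.helper26.T5.AllL
import Pool.Agent.helper26.T5.AllH
import Pool.Agent.helper94.T5.AsmTAS
import Pool.Agent.helper82.T5.SFin

set_option autoImplicit false

/-! # T5: the main theorems -/

namespace Pool.Agent.T5

theorem finU : U_stmt := U_of allBC

theorem fin : (∀ δ : ℝ, 0 < δ → δ ≤ 1 / 10 → SLU_stmt δ) ∧
    (∀ δ : ℝ, 0 < δ → δ ≤ 1 / 10 → SLL_stmt δ) ∧ MAIN_stmt ∧ MAIN2_stmt :=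
  SFin Pool.Agent.helper26.T5.AllL.L1_all Pool.Agent.helper26.T5.AllL.L2_all
    Pool.Agent.helper26.T5.AllL.LB_all Pool.Agent.helper26.T5.AllL.LE_all
    allEQUB1 allEQUB2 allTW (fun δ hδ _ => Pool.Agent.helper26.T5.AllH.T3_all δ hδ)
    (fun δ hδ _ => Pool.Agent.helper26.T5.AllL.T4_all all_ALG finU δ hδ) (EXC_of allBC) finU
    (fun δ hδ h1 => Pool.Agent.T5T.TAS δ (allEQC δ hδ h1))

/-- the main theorem for ideals -/
theorem main1 : MAIN_stmt := fin.2.2.1

/-- the main theorem for classes -/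
theorem main2 : MAIN2_stmt := fin.2.2.2

end Pool.Agent.T5
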