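import Pool.Agent.helper95.T5.Defs
import Pool.Agent.helper28.LT.Defs

set_option autoImplicit false

/-!
# T5, block N: near points, twisted and with a general modulus (engine)

All rows adapt finished modules of the projects FT (helper3) and LT (helper28); the page
/team-store/FT_NOTES.md has the proofs of the untwisted case.  Notation: modulus `(n³ r) (k s)`,
`e = r s`, twists `q₁, q₂`, scaled dual vector `(q₂ A, A', s B, q₁ s X)`.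
-/

namespace Pool.Agent.T5

open Finset NumberField Pool.Agent.helper3.FT Pool.Agent.helper47.RA

/-- general residues: modulus `(n³ r) (k s)`, twists `q₁, q₂` -/
structure ResG (n k q₁ q₂ r s α β γ : ℤ) : Prop where
  hα : n ^ 3 * r ∣ α
  hβ : n ^ 3 * r ∣ β * k ^ 2 + 1
  hγ : n ^ 3 * r ∣ q₁ * γ * k ^ 4 - q₂ * n ^ 2
  kα : k * s ∣ q₂ * α * n ^ 2 - q₁
  kβ : k * s ∣ β
  kγ : k * s ∣ γ

/-- **RE1** (short; adapt helper65/FT/R.lean `exists_res` and the LT module of `exists_resQ`).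
Proof. `n³ r` and `k s` are coprime.  Choose by CRT `α ≡ 0 (n³ r)`, `α ≡ q₁ (q₂ n²)⁻¹ (k s)` (`q₂ n²` is a unit modulo
`k s`); `β ≡ - (k²)⁻¹ (n³ r)`, `β ≡ 0 (k s)`; `γ ≡ q₂ n² (q₁ k⁴)⁻¹ (n³ r)`, `γ ≡ 0 (k s)`. -/
def RE1_stmt : Prop :=
  ∀ n k q₁ q₂ r s : ℤ, IsCoprime (n * r) (k * s) → IsCoprime q₁ (n * r) → IsCoprime q₂ (k * s) →
    ∃ α β γ : ℤ, ResG n k q₁ q₂ r s α β γ

/-- **RE2** (short).  The congruences for one `z` as one congruence modulo `(n³ r) (k s)`, with prescribed classes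
`c` of `(q₂ z n² - q₁ m²) / k` modulo `s` and `c'` of `(g² ...)/n³` modulo `r`.
Proof. `c₀` by CRT: `q₁ k⁴ c₀ ≡ - n³ c' (n³ r)`, `q₂ n² c₀ ≡ k c (k s)`.  Modulo `n³ r`:
`q₁ k⁴ (z - α m² - β m g - γ g² - c₀) ≡ q₁ z k⁴ + q₁ k² m g - q₂ n² g² + n³ c'` (`α ≡ 0`, `q₁ k⁴ β ≡ - q₁ k²`,
`q₁ k⁴ γ ≡ q₂ n²`) and `q₁ k⁴` is a unit; modulo `k s`: `q₂ n² (z - α m² - ... - c₀) ≡ q₂ n² z - q₁ m² - k c`, `q₂ n²` a unit.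
`n³ r` and `k s` are coprime. -/
def RE2_stmt : Prop :=
  ∀ n k q₁ q₂ r s α β γ : ℤ, IsCoprime (n * r) (k * s) → IsCoprime q₁ (n * r) →
    IsCoprime q₂ (k * s) → ResG n k q₁ q₂ r s α β γ → ∀ c c' : ℤ, ∃ c₀ : ℤ, ∀ m g z : ℤ,
    ((n ^ 3 * r) * (k * s) ∣ z - (α * m ^ 2 + β * m * g + γ * g ^ 2 + c₀) ↔
      (n ^ 3 * r ∣ q₁ * z * k ^ 4 + q₁ * m * g * k ^ 2 - q₂ * g ^ 2 * n ^ 2 + n ^ 3 * c' ∧
        k * s ∣ q₂ * z * n ^ 2 - q₁ * m ^ 2 - k * c))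

/-- **DM** (medium; adapt helper88/FT/DualMap.lean or the LT module of `dual_mapQ`).
Proof. Write `qq = (n³ r)(k s)`, `ξ = h (2 α u + β v) - qq * round`, `Ξ = h (β u + 2 γ v) - qq * round`;
`|ξ| ≤ qq / M`, `|Ξ| ≤ qq / G`.  Modulo `n³ r`: `k² ξ ≡ - h v`, so `A := (h v + k² ξ) / n³` is an integer.  Modulo `k s`:
`q₂ n² ξ ≡ 2 q₁ h u` and `Ξ ≡ 0`, `Ξ = k s X`.  Modulo `n³ r`: `q₁ k⁴ Ξ ≡ - q₁ h k² u + 2 q₂ n² h v ≡ - q₁ h k² u - 2 q₂ n² k² ξ`,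
so (`k` is a unit) `A' := (q₁ h u + 2 q₂ n² ξ + q₁ k² Ξ) / n³` is an integer.
`n² (2 n A' - 5 q₂ ξ) = 2 q₁ h u - q₂ n² ξ + 2 q₁ k³ s X ≡ 0` modulo `k s`, so `B := (2 n A' - 5 q₂ ξ) / (k s)` is an integer.
`5 q₂ h v = 5 q₂ A n³ - 5 q₂ k² ξ = 5 q₂ A n³ - k² (2 n A' - k s B)`, `5 q₁ h u = 5 A' n³ - 10 q₂ n² ξ - 5 q₁ s X k³ =
A' n³ + 2 s B n² k - 5 q₁ s X k³`.  Sizes: `|A| ≤ 4 h G / n³ + k² |ξ| / n³`, `|A'| ≤ (4 q₁ h M + 2 q₂ n² |ξ| + q₁ k² |Ξ|) / n³`,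
`|B| ≤ (2 n |A'| + 5 q₂ |ξ|) / (k s)`, `|X| = |Ξ| / (k s)`. -/
def DM_stmt : Prop :=
  ∀ n k q₁ q₂ r s M G h : ℕ, 1 ≤ n → 1 ≤ k → 1 ≤ q₁ → 1 ≤ q₂ → 1 ≤ r → 1 ≤ s → 1 ≤ M → 1 ≤ G → 1 ≤ h →
    Nat.Coprime (n * r) (k * s) → ∀ α β γ : ℤ, ResG n k q₁ q₂ r s α β γ →
    ∀ u v : ℤ, |u| ≤ 4 * M → |v| ≤ 4 * G →
    nd (2 * (h * α / ((n : ℝ) ^ 3 * k * (r * s))) * u + h * β / ((n : ℝ) ^ 3 * k * (r * s)) * v) ≤ 1 / M →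
    nd (h * β / ((n : ℝ) ^ 3 * k * (r * s)) * u + 2 * (h * γ / ((n : ℝ) ^ 3 * k * (r * s))) * v) ≤ 1 / G →
    ∃ A A' B X : ℤ,
      5 * q₂ * h * v = F1 (q₂ * A) A' (s * B) n k ∧ 5 * q₁ * h * u = F2 A' (s * B) (q₁ * s * X) n k ∧
      |(A : ℝ)| ≤ 4 * h * G / (n : ℝ) ^ 3 + (k : ℝ) ^ 3 * (r * s) / M ∧
      |(A' : ℝ)| ≤ 4 * q₁ * h * M / (n : ℝ) ^ 3 + 2 * q₂ * (n : ℝ) ^ 2 * k * (r * s) / M +
        q₁ * (k : ℝ) ^ 3 * (r * s) / G ∧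
      |(B : ℝ)| ≤ (2 * n * |(A' : ℝ)| / k + 5 * q₂ * (n : ℝ) ^ 3 * r * s / M) / s ∧
      |(X : ℝ)| ≤ (n : ℝ) ^ 3 * r / G

/-- gcd of four integers -/
def g4 (A A' B X : ℤ) : ℕ := Nat.gcd (Int.gcd A A') (Int.gcd B X)

/-- **PC4** (short-medium; copy of the FT module of `pair_count` with the full content instead of `gcd(A, A')`).
Proof. `δ = gcd(h, g4)`, `h'' = h / δ`, `v'' = v / δ`, `h'' ∣ F1(v''), F2(v'')` and `gcd(h'', content v'') = 1`.  Classes of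
pairs: for every prime `q ∣ h''` the value of `k / n` modulo `q` (at most 3 values, `roots_le`, applied to `v''`), and
`gcd(y, n)` (`2 ^ ω(y)` values).  Two different pairs of one class: `h''` divides `n k' - n' k` (`separation`), `y` divides
it, and `gcd(y, h'') = 1`.  `family` with `W = y h''`. -/
def PC4_stmt : Prop :=
  ∀ (h y N K : ℕ), 1 ≤ N → 1 ≤ h → Squarefree y → ∀ (A A' B X : ℤ),
    ¬ (A = 0 ∧ A' = 0 ∧ B = 0 ∧ X = 0) →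
    (((pairs N K y).filter (fun p => Nat.Coprime h (5 * (p.1 * p.2)) ∧
      ((h : ℤ) ∣ F1 A A' B p.1 p.2) ∧ ((h : ℤ) ∣ F2 A' B X p.1 p.2))).card : ℝ) ≤
      3 ^ h.primeFactors.card * 2 ^ y.primeFactors.card *
        (1 + 2 * K * N * Nat.gcd h (g4 A A' B X) / (h * y))

/-- boxes in `ℤ⁴` -/
noncomputable def box4 (a : Fin 4 → ℕ) : Finset (ℤ × ℤ × ℤ × ℤ) :=
  Icc (-(a 0 : ℤ)) (a 0) ×ˢ Icc (-(a 1 : ℤ)) (a 1) ×ˢ Icc (-(a 2 : ℤ)) (a 2) ×ˢ Icc (-(a 3 : ℤ)) (a 3)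

/-- **SG4** (short-medium).  Sum of the contents.
Proof. `Rf (q₂A, A', sB, q₁sX) ≠ 0` forces one of the pairs `(A',B), (A,X), (A,B), (A',X)` to have both entries nonzero
(look at the monomials of `Rf`), and `g4 ≤` the gcd of these two entries.  For nonzero entries in `[-a, a] × [-b, b]`:
`∑ gcd ≤ ∑_{d ≤ min(a,b)} d (2a/d)(2b/d) ≤ 4 a b (1 + log)`; the two other entries are free: `(2a_i+1)(2a_j+1)`. -/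
def SG4_stmt : Prop :=
  ∃ C : ℝ, 1 ≤ C ∧ ∀ (a : Fin 4 → ℕ) (T q₁ q₂ s : ℕ), (∀ i, a i ≤ T) → 1 ≤ T → 1 ≤ q₁ → 1 ≤ q₂ → 1 ≤ s →
    ∑ v ∈ (box4 a).filter (fun v => Rf (q₂ * v.1) v.2.1 (s * v.2.2.1) (q₁ * s * v.2.2.2) ≠ 0),
      (g4 v.1 v.2.1 v.2.2.1 v.2.2.2 : ℝ) ≤ C * (1 + Real.log T) * ∏ i, (2 * (a i : ℝ) + 1)

/-- **RDC** (medium; uses `Rf_zero_cases`).  Degenerate vectors in a box, sharp form.
Proof. `Rf = 0`.  (ii) second alternative of `Rf_zero_cases`: `B = 0`: `A X = 0`, `X = 0` is excluded (`(B,X) ≠ 0`), so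
`A = 0`: at most `(2a₁+1)(2a₃+1)` vectors.  `B ≠ 0`, `5 A B² = A'³`, `A' B = 25 A X`: if `A = 0` then `A' = 0`: `(B,X)` free;
if `A ≠ 0` then `(A', B)` determines `A` and `X`.  (i) a common zero `(n₀, k₀)`, coprime: `n₀ = 0`: `F1 = B k³`, `F2 = - 5 X k³`,
`B = X = 0` excluded.  `k₀ = 0`: `A = A' = 0`: `(B, X)` free.  `n₀ k₀ ≠ 0` (see FT_NOTES P5b, helper module of `count_root`):
`5A = k₀³ a`, `5X = n₀³ x`, `5A' = k₀ (x k₀² + 2 a n₀²)`, `5B = n₀ (2 x k₀² - a n₀²)` with integers `a, x`.  `a x ≠ 0`: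
`|a| ≤ 5 a₀/|k₀|³`, `|x| ≤ 5 a₃ / |n₀|³`: at most `∑ (10 a₀/|k₀|³)(10 a₃/|n₀|³) ≤ C a₀ a₃`.  `x = 0`: `|a k₀³| ≤ 5 a₀`,
`|a n₀³| ≤ 5 a₂` (`5B = - a n₀³`): at most `∑ min(10 a₀/|k₀|³, 10 a₂/|n₀|³) ≤ C (a₀ + a₂)` (split `|n₀| ≤ |k₀|`).  `a = 0`:
`5X = n₀³ x`, `5A' = k₀³ x`: `C (a₁ + a₃)`. -/
def RDC_stmt : Prop :=
  ∃ C : ℝ, 1 ≤ C ∧ ∀ a : Fin 4 → ℕ,
    (((box4 a).filter (fun v => Rf v.1 v.2.1 v.2.2.1 v.2.2.2 = 0 ∧ ¬ (v.2.2.1 = 0 ∧ v.2.2.2 = 0))).card : ℝ) ≤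
      C * ((a 0 : ℝ) * a 3 + (a 1 + 1) * (a 2 + 1) + (a 1 + 1) * (a 3 + 1) + (a 2 + 1) * (a 3 + 1) + a 0)

/-- the dual points; the scaling `s` depends on the pair -/
noncomputable def dualG (N K y P c q₁ q₂ : ℕ) (s : ℕ × ℕ → ℕ) (a : Fin 4 → ℕ) :
    Finset (ℕ × (ℕ × ℕ) × (ℤ × ℤ × ℤ × ℤ)) :=
  (Ico P (2 * P) ×ˢ pairs N K y ×ˢ box4 a).filter
    (fun t => Nat.Coprime t.1 (5 * c * (t.2.1.1 * t.2.1.2)) ∧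
      ((t.1 : ℤ) ∣ F1 (q₂ * t.2.2.1) t.2.2.2.1 (s t.2.1 * t.2.2.2.2.1) t.2.1.1 t.2.1.2) ∧
      ((t.1 : ℤ) ∣ F2 t.2.2.2.1 (s t.2.1 * t.2.2.2.2.1) (q₁ * s t.2.1 * t.2.2.2.2.2) t.2.1.1 t.2.1.2) ∧
      (F1 (q₂ * t.2.2.1) t.2.2.2.1 (s t.2.1 * t.2.2.2.2.1) t.2.1.1 t.2.1.2 ≠ 0 ∨
        F2 t.2.2.2.1 (s t.2.1 * t.2.2.2.2.1) (q₁ * s t.2.1 * t.2.2.2.2.2) t.2.1.1 t.2.1.2 ≠ 0))

/-- the main bound for the dual points -/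
noncomputable def dB (N K y P q₁ q₂ e : ℕ) (a : Fin 4 → ℕ) : ℝ :=
  (∏ i, (2 * (a i : ℝ) + 1)) * (1 + (N : ℝ) * K / (y * P)) +
    ((q₂ * a 0 : ℝ) * (q₁ * e * a 3) + (a 1 + 1) * (e * a 2 + 1) + (a 1 + 1) * (q₁ * e * a 3 + 1) +
      (e * a 2 + 1) * (q₁ * e * a 3 + 1) + q₂ * a 0 + a 0 + a 1 + (a 0 : ℝ) * a 1 / P) * ((N : ℝ) * K / y)

/-- **DC4** (medium; adapt helper77/FT/P6c.lean; uses PC4, SG4, RDC, `dvd_Rf`, `pairs_card`).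
Proof. `s(p) ∣ e`: sum over the at most `d(e) ≤ C T^ε` values `s` of `s(p)` (drop the condition on the pair).  Fix `s`; let
`v' = (q₂A, A', sB, q₁sX)`.
(1) `Rf(v') ≠ 0`: `h ∣ Rf(v')` (`dvd_Rf`; `h` is coprime to `5 n k`), `|Rf(v')| ≤ C T^24`, so at most `C T^ε` values `h` per
`v`; for each PC4 with `gcd(h, g4 v') = gcd(h, g4 v) ≤ g4 v` (`h` is coprime to `c`, and `q₁ q₂ e ∣ c`);
`3^ω(h), 2^ω(y) ≤ C T^ε`, `h ≥ P`; sum over `v` by SG4 (`1 ≤ g4 v`).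
(2) `Rf(v') = 0`, `(B,X) ≠ (0,0)`: the scaled vectors `v'` lie in the box `(q₂a₀, a₁, e a₂, q₁ e a₃)`, RDC; pairs: `pairs_card`;
`h` divides the nonzero one of `F1, F2` (size `≤ C T^12`): `C T^ε` values.
(3) `B = X = 0`: `F1 = 5 q₂ A n³ - 2 A' n k²`, `F2 = A' n³`; `h` is coprime to `5 n k c` so `h ∣ A'` and `h ∣ A`, `(A,A') ≠ 0`:
`∑_{P ≤ h < 2P} ((2a₀/h+1)(2a₁/h+1) - 1) ≤ 4 a₀ a₁ / P + 2 a₀ + 2 a₁` pairs `(h,(A,A'))`; times `pairs_card`. -/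
def DC4_stmt : Prop :=
  ∀ ε : ℝ, 0 < ε → ∃ C : ℝ, 1 ≤ C ∧ ∀ (T N K y P c q₁ q₂ e : ℕ) (s : ℕ × ℕ → ℕ) (a : Fin 4 → ℕ),
    1 ≤ N → N ≤ T → 1 ≤ K → K ≤ T → 1 ≤ P → P ≤ T → 1 ≤ y → y ≤ T → 1 ≤ c → c ≤ T → q₁ * q₂ * e ∣ c →
    (∀ i, a i ≤ T) → Squarefree y → (∀ p, s p ∣ e) →
    ((dualG N K y P c q₁ q₂ s a).card : ℝ) ≤ C * (T : ℝ) ^ ε * dB N K y P q₁ q₂ e a

/-- number of near points, general modulus `n³ k e` -/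
noncomputable def nearG (M G e : ℕ) (ρ : ℕ × ℕ → ℤ × ℤ × ℤ) (h : ℕ) (p : ℕ × ℕ) : ℝ :=
  ((nearPts M G (h * (ρ p).1 / ((p.1 : ℝ) ^ 3 * p.2 * e)) (h * (ρ p).2.1 / ((p.1 : ℝ) ^ 3 * p.2 * e))
    (h * (ρ p).2.2 / ((p.1 : ℝ) ^ 3 * p.2 * e))).card : ℝ)

/-- the side conditions on the dual box, for all frequencies up to `H` -/
structure Sides (N K M G H e q₁ q₂ : ℕ) (a : Fin 4 → ℕ) : Prop where
  h0 : 32 * (H : ℝ) * G / (N : ℝ) ^ 3 + (K : ℝ) ^ 3 * e / M ≤ a 0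
  h1 : 32 * (q₁ : ℝ) * H * M / (N : ℝ) ^ 3 + 2 * q₂ * (N : ℝ) ^ 2 * K * e / M + q₁ * (K : ℝ) ^ 3 * e / G ≤ a 1
  h2 : 4 * (N : ℝ) * a 1 / K + 5 * q₂ * (N : ℝ) ^ 3 * e / M ≤ a 2
  h3 : (N : ℝ) ^ 3 * e / G ≤ a 3

/-- residues for all pairs of `W` -/
def Resid (W : Finset (ℕ × ℕ)) (q₁ q₂ e : ℕ) (r s : ℕ × ℕ → ℕ) (ρ : ℕ × ℕ → ℤ × ℤ × ℤ) : Prop :=
  ∀ p ∈ W, r p * s p = e ∧ Nat.Coprime (p.1 * r p) (p.2 * s p) ∧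
    ResG p.1 p.2 q₁ q₂ (r p) (s p) (ρ p).1 (ρ p).2.1 (ρ p).2.2

/-- **NS4** (medium; adapt helper61/FT/N.lean; uses DM).
Proof. The point `(0,0)` gives at most `P |pairs|`.  The other near points `(u,v)` of `(d h; p)` are mapped by DM (with `d h`
for `h`; `n > N/2`, `k > K/2`, `n ≤ N`, `k ≤ K`, `d h ≤ H`, `r s = e`) to `(h, p, (A,A',B,X))` in `dualG`: `h` divides
`F1 = 5 q₂ d h v` and `F2 = 5 q₁ d h u`, not both zero; injective because `F1, F2` give `v, u`.  (Sizes: the bound of DM for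
`B` is at most `4 N a₁/K + 5 q₂ N³ e / M`, using `s ≥ 1`.) -/
def NS4_stmt : Prop :=
  ∀ (N K M G H e q₁ q₂ d P y c : ℕ) (a : Fin 4 → ℕ) (W : Finset (ℕ × ℕ)) (r s : ℕ × ℕ → ℕ)
    (ρ : ℕ × ℕ → ℤ × ℤ × ℤ), 1 ≤ N → 1 ≤ K → 1 ≤ M → 1 ≤ G → 1 ≤ e → 1 ≤ q₁ → 1 ≤ q₂ → 1 ≤ d → 1 ≤ P →
    Sides N K M G H e q₁ q₂ a → W ⊆ pairs N K y → Resid W q₁ q₂ e r s ρ →
    ∑ h ∈ (Ico P (2 * P)).filter (fun h => d * h ≤ H),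
      ∑ p ∈ W.filter (fun p => Nat.Coprime h (5 * c * (p.1 * p.2))), nearG M G e ρ (d * h) p ≤
      P * ((pairs N K y).card : ℝ) + ((dualG N K y P c q₁ q₂ s a).card : ℝ)

/-- the primes of `d` outside `5 c` -/
def yc (c d : ℕ) : ℕ := ∏ p ∈ d.primeFactors.filter (fun p => ¬ p ∣ 5 * c), p

/-- **SS** (short-medium; uses LT `card_smooth`, `rad_sum` or FT `yy_sum`).
Proof. `d = d₁ d₂`, `d₁` composed of primes dividing `5 c y`, `d₂` coprime to it (`split_part`).  `yc c d = yc c d₁ * rad d₂`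
and `gcd (yc c d) y = yc c d₁`, so the summand is `1 / rad d₂`.  The number of `d₁ ≤ H` is `≤ C T^ε` (`card_smooth` with
`f = 5 c y ≤ 5 T²`), `∑_{d₂ ≤ H} 1/rad d₂ ≤ C T^ε`. -/
def SS_stmt : Prop :=
  ∀ ε : ℝ, 0 < ε → ∃ C : ℝ, 1 ≤ C ∧ ∀ T H c y : ℕ, 1 ≤ H → H ≤ T → 1 ≤ c → c ≤ T → 1 ≤ y → y ≤ T →
    Squarefree y → ∑ d ∈ Icc 1 H, (Nat.gcd (yc c d) y : ℝ) / (yc c d : ℝ) ≤ C * (T : ℝ) ^ ε

/-- the final bound for near points -/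
noncomputable def nB (N K H y q₁ q₂ e : ℕ) (a : Fin 4 → ℕ) : ℝ :=
  (H : ℝ) * N * K / y + √(∏ i, (2 * (a i : ℝ) + 1)) * (√((H : ℝ) * N * K / y) + (N : ℝ) * K / y) +
    √(H * ((q₂ * a 0 : ℝ) * (q₁ * e * a 3) + (a 1 + 1) * (e * a 2 + 1) + (a 1 + 1) * (q₁ * e * a 3 + 1) +
      (e * a 2 + 1) * (q₁ * e * a 3 + 1) + q₂ * a 0 + a 0 + a 1) + (a 0 : ℝ) * a 1) * ((N : ℝ) * K / y)

/-- **NEAR** (medium; adapt helper3/FT/G1.lean `cover_sum` and helper3/FT/G3.lean; uses NS4, DC4, SS, `pairs_card`).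
Proof. Every `h ≤ H` is `h = d h'` with `h'` coprime to `5 c n k` and all primes of `d` dividing `5 c n k` (`split_part`);
then `yc c d ∣ n k`, and `y ∣ n k`, so the pair lies in `pairs N K (lcm (yc c d) y)` (the lcm is squarefree).  `h'` in dyadic
ranges `[P, 2P)`, `d P ≤ H`.  For fixed `d, P`, with `Y = lcm (yc c d) y`: Cauchy-Schwarz,
`∑ √near ≤ √(P |pairs|) √(∑ near)`, NS4, DC4, `|pairs| ≤ C T^ε N K / Y`: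
`≤ C T^ε [P N K/Y + √Π (√(P N K / Y) + N K / Y) + √(P D + a₀ a₁) N K / Y]`.  `P ≤ H/d ≤ H / yc c d`, `1/Y = gcd/(yc · y)`,
`P / Y ≤ H gcd / (yc² y)`, so every term is at most the corresponding term of `nB` times `gcd (yc c d) y / yc c d`
(`√gcd ≤ gcd`); SS; `C log T` values of `P`.  Here `c = q₁ q₂ e`. -/
def NEAR_stmt : Prop :=
  ∀ ε : ℝ, 0 < ε → ∃ C : ℝ, 1 ≤ C ∧ ∀ (T N K M G H e q₁ q₂ y : ℕ) (a : Fin 4 → ℕ) (W : Finset (ℕ × ℕ))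
    (r s : ℕ × ℕ → ℕ) (ρ : ℕ × ℕ → ℤ × ℤ × ℤ),
    1 ≤ N → N ≤ T → 1 ≤ K → K ≤ T → 1 ≤ M → 1 ≤ G → 1 ≤ H → H ≤ T → 1 ≤ e → 1 ≤ q₁ → 1 ≤ q₂ →
    q₁ * q₂ * e ≤ T → 1 ≤ y → y ≤ T → (∀ i, a i ≤ T) → Squarefree y →
    Sides N K M G H e q₁ q₂ a → W ⊆ pairs N K y → Resid W q₁ q₂ e r s ρ →
    ∑ p ∈ W, ∑ h ∈ Icc 1 H, √(nearG M G e ρ h p) ≤ C * (T : ℝ) ^ ε * nB N K H y q₁ q₂ e a

/-- exponential sums of quadratic polynomials over intervals and residue classes -/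
noncomputable def ESg (m₀ g₀ : ℤ) (M G P : ℕ) (r r' : ℤ) (a b c x y : ℝ) : ℂ :=
  ∑ m ∈ (Ico m₀ (m₀ + M)).filter (fun m => (P : ℤ) ∣ m - r),
    ∑ g ∈ (Ico g₀ (g₀ + G)).filter (fun g => (P : ℤ) ∣ g - r'),
      e (a * m ^ 2 + b * m * g + c * g ^ 2 + x * m + y * g)

/-- **WEY** (medium; adapt helper77/FT/E1.lean and the LT modules of `weyl_cong`, `weyl_near`; uses FT `cells`).
Proof. The class conditions are averages of linear phases: `1_{P ∣ m - r} = (1/P) ∑_{j<P} e(j (m-r)/P)`, so it is enough to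
bound the sums with `P = 1` and arbitrary `x, y` by the right hand side (uniform in `x, y`).  Shift `m = m₀ + m'`,
`g = g₀ + g'`: the quadratic part is unchanged, the linear one changes.  `|S|²`: `m₁ = m' + u`, `g₁ = g' + v`:
phase difference `q(u,v) + x u + y v + (2 a u + b v) m' + (b u + 2 c v) g'`; the sums over `m', g'` are geometric over
intervals of length at most `M, G`: `≤ wt M (2au+bv) * wt G (bu+2cv)`; `|u| ≤ 2M`, `|v| ≤ 2G`; then `cells`. -/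
def WEY_stmt : Prop :=
  ∃ C : ℝ, 1 ≤ C ∧ ∀ (m₀ g₀ : ℤ) (M G P : ℕ) (r r' : ℤ) (a b c x y : ℝ), 1 ≤ M → 1 ≤ G → 1 ≤ P →
    ‖ESg m₀ g₀ M G P r r' a b c x y‖ ^ 2 ≤
      C * (1 + Real.log M) * (1 + Real.log G) * M * G * ((nearPts M G a b c).card : ℝ)

/-- the fibre: points `(m, g, z)` in a box, in classes modulo `P`, with `z ≡ α m² + β m g + γ g² + c₀` modulo `q` -/
noncomputable def fibG (m₀ g₀ z₀ : ℤ) (M G V P q : ℕ) (r r' α β γ c₀ : ℤ) : Finset (ℤ × ℤ × ℤ) :=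
  (((Ico m₀ (m₀ + M)).filter (fun m => (P : ℤ) ∣ m - r)) ×ˢ
    (((Ico g₀ (g₀ + G)).filter (fun g => (P : ℤ) ∣ g - r')) ×ˢ Ico z₀ (z₀ + V))).filter
    (fun t => (q : ℤ) ∣ t.2.2 - (α * t.1 ^ 2 + β * t.1 * t.2.1 + γ * t.2.1 ^ 2 + c₀))

/-- **FUP** (short-medium; from FT `fejer`, adapt helper65/FT/R.lean `fibre_fejer`).
Proof. `(m,g,z) ↦ (m,g)` is injective on the fibre (`V ≤ q`); with `x = (α m² + β m g + γ g² + c₀ - z₀ - V/2)/q`,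
`nd x ≤ V/(2q) ≤ 1/(8H)`.  `fejer`; `|∑ e(h x)| = ‖ESg ...‖`; the number of `(m,g)` is at most `(M/P+1)(G/P+1)`. -/
def FUP_stmt : Prop :=
  ∀ (m₀ g₀ z₀ : ℤ) (M G V P q H : ℕ) (r r' α β γ c₀ : ℤ), 1 ≤ V → 1 ≤ P → 1 ≤ q → 1 ≤ H → 4 * H * V ≤ q →
    ((fibG m₀ g₀ z₀ M G V P q r r' α β γ c₀).card : ℝ) ≤ 2 / H * (((M : ℝ) / P + 1) * ((G : ℝ) / P + 1) +
      2 * ∑ h ∈ Ico 1 H, ‖ESg m₀ g₀ M G P r r' (h * α / q) (h * β / q) (h * γ / q) 0 0‖)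

/-- **TRZ** (medium; finite Fourier analysis modulo `q` with a smoothing of length `J`).
Proof. `W(x) = #{(z,j) ∈ [0,V) × [0,J) : q ∣ x - c - z - j} = (1/q) ∑_{h mod q} e(h (x-c)/q) D_V(h) D_J(h)`,
`D_V(h) = ∑_{z<V} e(-h z/q)`, `|D_V(h)| ≤ min(V, q/(2|h|))` for `|h| ≤ q/2`.  Sum over `i`, the term `h = 0` is `|s| V J/q`; `h` and `-h`
have the same absolute values, so the others are at most `(2/q) ∑_{1 ≤ h ≤ q/2}`.  Then for the count `n(c,V)` of the `i`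
with `x_i mod q ∈ c + [0,V)`: `J n(c,V) ≥ W(c, V-J)` (if `J ≤ V`), `J n(c,V) ≤ W(c-J, V+J)`. -/
def TRZ_stmt : Prop :=
  ∀ {ι : Type} (s : Finset ι) (x : ι → ℤ) (q V J : ℕ) (c : ℤ), 1 ≤ J → J ≤ V → V + J ≤ q →
    |((s.filter (fun i => ∃ z ∈ Ico c (c + V), (q : ℤ) ∣ x i - z)).card : ℝ) - s.card * (V : ℝ) / q| ≤
      s.card * (J : ℝ) / q + 4 / (J * q : ℝ) * ∑ h ∈ Icc 1 (q / 2),
        min (2 * V : ℝ) (q / (2 * h)) * min (J : ℝ) (q / (2 * h)) * ‖∑ i ∈ s, e (h * x i / q)‖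

/-- **FIB** (short; from TRZ).  Two sided estimate for a fibre.
Proof. TRZ with `s` the pairs `(m,g)`, `x = α m² + β m g + γ g² + c₀`; the number of `(m,g)` is `(M/P + O(1))(G/P + O(1))`. -/
def FIB_stmt : Prop :=
  ∀ (m₀ g₀ z₀ : ℤ) (M G V J P q : ℕ) (r r' α β γ c₀ : ℤ), 1 ≤ P → P ≤ M → P ≤ G → 1 ≤ J → J ≤ V → V + J ≤ q →
    |((fibG m₀ g₀ z₀ M G V P q r r' α β γ c₀).card : ℝ) - (M : ℝ) / P * ((G : ℝ) / P) * (V : ℝ) / q| ≤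
      (4 * J * ((M : ℝ) / P) * ((G : ℝ) / P) + 4 * ((M : ℝ) / P + G / P) * V) / q +
      4 / (J * q : ℝ) * ∑ h ∈ Icc 1 (q / 2), min (2 * V : ℝ) (q / (2 * h)) * min (J : ℝ) (q / (2 * h)) *
        ‖ESg m₀ g₀ M G P r r' (h * α / q) (h * β / q) (h * γ / q) 0 0‖

end Pool.Agent.T5
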