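import Pool.Agent.helper3.FT.Defs
import Pool.Agent.helper3.FT.AlgDefs

set_option autoImplicit false

/-!
# T5: Cohen-Lenstra constant for `p = 5`, ideals of norm `N ^ (2 / 5) ≤ Y ≤ N ^ (1 / 2 - δ)`

Definitions and the interface statements between the blocks.
Page: /team-store/MP16912e_T5_PAGE_helper95.md
-/

namespace Pool.Agent.T5

open Finset NumberField Pool.Agent.helper3.FT Pool.Agent.helper47.RA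

/-! ## Tuples -/

/-- `((n, k), (m, g, Z))` -/
abbrev Tpl : Type := (ℕ × ℕ) × (ℤ × ℤ × ℤ)

/-- a coprime tuple -/
structure IsT (t : Tpl) : Prop where
  n1 : 1 ≤ t.1.1
  k1 : 1 ≤ t.1.2
  co : Nat.Coprime t.1.1 t.1.2
  c1 : (t.1.1 : ℤ) ^ 3 ∣ t.2.2.2 * (t.1.2 : ℤ) ^ 4 + t.2.1 * t.2.2.1 * (t.1.2 : ℤ) ^ 2
        - t.2.2.1 ^ 2 * (t.1.1 : ℤ) ^ 2
  c2 : (t.1.2 : ℤ) ∣ t.2.1 ^ 2 - t.2.2.2 * (t.1.1 : ℤ) ^ 2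

/-- `Λ`: `Λ n² = m g + Z k²` -/
def lam (t : Tpl) : ℤ := (t.2.1 * t.2.2.1 + t.2.2.2 * (t.1.2 : ℤ) ^ 2) / (t.1.1 : ℤ) ^ 2

/-- `R`: `k R = Z n² - m²` -/
def RR (t : Tpl) : ℤ := (t.2.2.2 * (t.1.1 : ℤ) ^ 2 - t.2.1 ^ 2) / (t.1.2 : ℤ)

/-- `R'`: `n R' = g² - Λ k²` -/
def RR' (t : Tpl) : ℤ := (t.2.2.1 ^ 2 - lam t * (t.1.2 : ℤ) ^ 2) / (t.1.1 : ℤ)

/-- the discriminant: `dis (n k)² = (Z g - Λ m)² - 4 Z² Λ k²` -/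
def dis (t : Tpl) : ℤ :=
  ((t.2.2.2 * t.2.2.1 - lam t * t.2.1) ^ 2 - 4 * t.2.2.2 ^ 2 * lam t * (t.1.2 : ℤ) ^ 2) /
    ((t.1.1 : ℤ) * t.1.2) ^ 2

/-- the central set; `Y₂ = N ^ (1 / 2 + δ / 100)` in the applications -/
structure Cen (κ N Y Y₂ : ℝ) (t : Tpl) : Prop where
  tt : IsT t
  z1 : Y / 2 < t.2.2.2
  z2 : (t.2.2.2 : ℝ) ≤ Y
  d1 : N / 2 < -(dis t : ℝ)
  d2 : -(dis t : ℝ) ≤ N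
  l1 : κ * Y₂ ≤ lam t
  l2 : (lam t : ℝ) * √N ≤ Y₂ * √(-(dis t : ℝ))
  s1 : 2 * κ * t.2.2.2 * √(lam t : ℝ) ≤ t.1.1 * √(-(dis t : ℝ))
  s2 : 2 * κ * √(t.2.2.2 : ℝ) * lam t ≤ t.1.2 * √(-(dis t : ℝ))

/-- `D` is `p`-fundamental (for `D` congruent to `0, 1` modulo `4`) -/
def Pfund (p : ℕ) (D : ℤ) : Prop :=
  if p = 2 then D % 16 ≠ 0 ∧ D % 16 ≠ 4 else ¬ (p : ℤ) ^ 2 ∣ D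

open Classical in
/-- the local weight of a tuple -/
noncomputable def fp (p : ℕ) (t : Tpl) : ℝ :=
  if p ∣ t.1.1 then
    (if ¬ p ∣ t.1.2 ∧ ¬ (p : ℤ) ∣ t.2.2.1 ∧ (p : ℤ) ∣ t.2.1 ∧ ¬ (p : ℤ) ^ 2 ∣ t.2.1 then
      (p : ℝ) / (p - 1) else 0)
  else if ((p : ℤ) ∣ t.2.2.2 ∧ (p : ℤ) ∣ lam t) ∨ ¬ Pfund p (dis t) then 0
  else if (p : ℤ) ∣ t.2.2.2 then ((p : ℝ) / (p - 1)) ^ 2 else (p : ℝ) / (p - 1)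

/-- primes up to `w` -/
def pr (w : ℕ) : Finset ℕ := (range (w + 1)).filter Nat.Prime

/-- the weight of a tuple -/
noncomputable def fw (w : ℕ) (t : Tpl) : ℝ := ∏ p ∈ pr w, fp p t

/-! ## Ideals -/

variable {K : Type} [Field K] [NumberField K]

/-- primitive ideals whose class has order exactly 5, of norm in `(Y / 2, Y]` -/
def IA (K : Type) [Field K] [NumberField K] (Y : ℝ) : Set (Ideal (𝓞 K)) :=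
  {a | a ≠ ⊥ ∧ Prim a ∧ (a ^ 5).IsPrincipal ∧ ¬ a.IsPrincipal ∧
    Y / 2 < (Ideal.absNorm a : ℝ) ∧ (Ideal.absNorm a : ℝ) ≤ Y}

/-- exceptional ideals: `[a]⁻²` contains an ideal of norm at most `B` -/
def EX (Q : QF K) (Y B : ℝ) : Set (Ideal (𝓞 K)) :=
  {a | a ∈ IA K Y ∧ ∃ α ∈ a ^ 2, α ≠ 0 ∧ (Q.v₁ α) ^ 2 ≤ (Ideal.absNorm a : ℝ) ^ 2 * B}

/-- the elements `α` of `a²` with `y(α) > 0` and `N(α) ≤ Z² X` -/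
def AL (Q : QF K) (a : Ideal (𝓞 K)) (X : ℝ) : Set (𝓞 K) :=
  {α | α ∈ a ^ 2 ∧ 0 < Q.Y α ∧ (Q.v₁ α) ^ 2 ≤ (Ideal.absNorm a : ℝ) ^ 2 * X}

/-- `Λ = N(α) / Z²` -/
noncomputable def lamI (a : Ideal (𝓞 K)) (α : 𝓞 K) : ℕ :=
  Ideal.absNorm (Ideal.span {α}) / (Ideal.absNorm a) ^ 2

/-- the allowed `α` at `p` -/
def alw (Q : QF K) (p : ℕ) (a : Ideal (𝓞 K)) (α : 𝓞 K) : Prop :=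
  (¬ (p : ℤ) ∣ Q.Y α ∧ ¬ (p ∣ Ideal.absNorm a ∧ p ∣ lamI a α)) ∨
    (p ∣ Ideal.absNorm a ∧ (p : ℤ) ∣ Q.D ∧ ¬ p ∣ lamI a α)

open Classical in
/-- the weight of `(a, α)` -/
noncomputable def wt (Q : QF K) (w : ℕ) (a : Ideal (𝓞 K)) (α : 𝓞 K) : ℝ :=
  ∏ p ∈ pr w, if alw Q p a α then
    (if p ∣ Ideal.absNorm a ∧ ¬ (p : ℤ) ∣ Q.D then ((p : ℝ) / (p - 1)) ^ 2 else (p : ℝ) / (p - 1))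
    else 0

/-- `γ = Z α² / θ`, where `a⁵ = (θ)` -/
def IsGam (a : Ideal (𝓞 K)) (α γ : 𝓞 K) : Prop :=
  ∃ θ : 𝓞 K, a ^ 5 = Ideal.span {θ} ∧ γ * θ = (Ideal.absNorm a : 𝓞 K) * α ^ 2

/-- the good region -/
def GoodR (Q : QF K) (κ Y₂ : ℝ) (a : Ideal (𝓞 K)) (α γ : 𝓞 K) : Prop :=
  κ * Y₂ ≤ lamI a α ∧
  2 * κ * (Ideal.absNorm a : ℝ) * √(lamI a α : ℝ) ≤ (Q.Y α : ℝ) * √(-(Q.D : ℝ)) ∧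
  2 * κ * √(Ideal.absNorm a : ℝ) * (lamI a α : ℝ) ≤ |(Q.Y γ : ℝ)| * √(-(Q.D : ℝ))

/-! ## Interface statements of the analytic block (helper95) -/

/-- central sizes -/
noncomputable def sN (N Y Y₂ : ℝ) : ℝ := Y * √Y₂ / √N
noncomputable def sK (N Y Y₂ : ℝ) : ℝ := √Y * Y₂ / √N
noncomputable def sM (N Y Y₂ : ℝ) : ℝ := Y * √Y * √Y₂ / √N
noncomputable def sG (N Y Y₂ : ℝ) : ℝ := √Y * Y₂ * √Y₂ / √N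

/-- the part of `e` coprime to `n` -/
def e1 (e n : ℕ) : ℕ := ∏ p ∈ e.primeFactors.filter (fun p => ¬ p ∣ n), p ^ (e.factorization p)

/-- a box in normalised coordinates with classes modulo `e` -/
structure InCell (N Y Y₂ : ℝ) (a b : Fin 5 → ℝ) (e : ℕ) (c : Fin 5 → ℤ) (t : Tpl) : Prop where
  tt : IsT t
  n1 : a 0 * sN N Y Y₂ < t.1.1
  n2 : (t.1.1 : ℝ) ≤ b 0 * sN N Y Y₂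
  k1 : a 1 * sK N Y Y₂ < t.1.2
  k2 : (t.1.2 : ℝ) ≤ b 1 * sK N Y Y₂
  m1 : a 2 * sM N Y Y₂ < t.2.1
  m2 : (t.2.1 : ℝ) ≤ b 2 * sM N Y Y₂
  g1 : a 3 * sG N Y Y₂ < t.2.2.1
  g2 : (t.2.2.1 : ℝ) ≤ b 3 * sG N Y Y₂
  z1 : a 4 * Y < t.2.2.2
  z2 : (t.2.2.2 : ℝ) ≤ b 4 * Y
  cn : (e : ℤ) ∣ (t.1.1 : ℤ) - c 0
  ck : (e : ℤ) ∣ (t.1.2 : ℤ) - c 1
  cm : (e : ℤ) ∣ t.2.1 - c 2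
  cg : (e : ℤ) ∣ t.2.2.1 - c 3
  cR : (e1 e t.1.1 : ℤ) ∣ RR t - c 4

/-- EQC: equidistribution in boxes -/
def EQC_stmt (δ : ℝ) : Prop :=
  ∀ a b : Fin 5 → ℝ, 0 < a 0 → 0 < a 1 → 0 < a 4 → (∀ i, a i < b i) →
  ∀ (e : ℕ) (c : Fin 5 → ℤ), 1 ≤ e → (∀ p : ℕ, p.Prime → p ∣ e → ¬ ((p : ℤ) ∣ c 0 ∧ (p : ℤ) ∣ c 1)) →
  ∀ ε : ℝ, 0 < ε → ∃ N₀ : ℝ, ∀ N Y : ℝ, N₀ ≤ N → N ^ (0.39 : ℝ) ≤ Y → Y ≤ N ^ (1 / 2 - δ) →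
  ∀ F : Finset Tpl, (∀ t, t ∈ F ↔ InCell N Y (N ^ (1 / 2 + δ / 100)) a b e c t) →
    |(F.card : ℝ) - Y * N ^ (1 / 2 + δ / 100) *
      ((((a 0) ^ 2)⁻¹ - ((b 0) ^ 2)⁻¹) / 2 * Real.log (b 1 / a 1) * (b 2 - a 2) * (b 3 - a 3) *
        (b 4 - a 4) * (6 / Real.pi ^ 2) / ((∏ p ∈ e.primeFactors, (1 - 1 / (p : ℝ) ^ 2)) *
          ((e : ℝ) ^ 4 * (e1 e (c 0).natAbs : ℝ))))| ≤ ε * (Y * N ^ (1 / 2 + δ / 100))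

/-- EQUB1: upper bound with residue classes, `n` coprime to `e`; scales `N'` slightly above `N` -/
def EQUB1_stmt (δ : ℝ) : Prop :=
  ∀ κ : ℝ, 0 < κ → ∃ C N₀ : ℝ, 1 ≤ C ∧ ∀ N Y N' : ℝ, N₀ ≤ N → N ^ (0.39 : ℝ) ≤ Y →
  Y ≤ N ^ (1 / 2 - δ) → N ≤ N' → N' ≤ N ^ (1 + δ / 5000) →
  ∀ e : ℕ, 1 ≤ e → (e : ℝ) ≤ N ^ (δ / 5000) → ∀ (s : ℕ) (S : ℕ × ℕ → Finset (ℤ × ℤ × ℤ)),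
  (∀ p, (S p).card ≤ s) → ∀ F : Finset Tpl, (∀ t ∈ F, Cen κ N' Y (N ^ (1 / 2 + δ / 100)) t ∧
    Nat.Coprime t.1.1 e ∧ ∃ c ∈ S t.1, (e : ℤ) ∣ t.2.1 - c.1 ∧ (e : ℤ) ∣ t.2.2.1 - c.2.1 ∧
      (e : ℤ) ∣ RR t - c.2.2) →
  (F.card : ℝ) ≤ (C * s / (e : ℝ) ^ 3 + N ^ (-(δ / 4))) * (Y * N ^ (1 / 2 + δ / 100))

/-- EQUB2: the case `p ∣ n` -/
def EQUB2_stmt (δ : ℝ) : Prop :=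
  ∀ κ : ℝ, 0 < κ → ∃ C N₀ : ℝ, 1 ≤ C ∧ ∀ N Y : ℝ, N₀ ≤ N → N ^ (0.39 : ℝ) ≤ Y →
  Y ≤ N ^ (1 / 2 - δ) →
  ∀ p : ℕ, p.Prime → (p : ℝ) ≤ N ^ (δ / 5000) → ∀ (s : ℕ) (S : ℕ × ℕ → Finset (ℤ × ℤ × ℤ)),
  (∀ p, (S p).card ≤ s) → ∀ F : Finset Tpl, (∀ t ∈ F, Cen κ N Y (N ^ (1 / 2 + δ / 100)) t ∧
    p ∣ t.1.1 ∧ ∃ c ∈ S t.1, (p : ℤ) ∣ t.2.1 - c.1 ∧ (p : ℤ) ∣ t.2.2.1 - c.2.1 ∧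
      (p : ℤ) ∣ RR' t - c.2.2) →
  (F.card : ℝ) ≤ (C * s / (p : ℝ) ^ 4 + N ^ (-(δ / 4))) * (Y * N ^ (1 / 2 + δ / 100))

/-- BC: all blocks -/
def BC_stmt : Prop :=
  ∀ δ : ℝ, 0 < δ → δ ≤ 1 / 10 → ∃ c : ℝ, 0 < c ∧ ∀ ε : ℝ, 0 < ε → ∃ C : ℝ, 1 ≤ C ∧
  ∀ N Q₁ Q₂ : ℝ, 1 ≤ N → N ^ (0.38 : ℝ) ≤ Q₁ → Q₁ ≤ N ^ (1 / 2 - δ) → 1 ≤ Q₂ →
  Q₂ ≤ N ^ (1 / 2 + δ / 100) →
  ∀ F : Finset Tpl, (∀ t ∈ F, IsT t ∧ Q₁ / 2 < t.2.2.2 ∧ (t.2.2.2 : ℝ) ≤ Q₁ ∧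
    Q₂ / 2 < lam t ∧ (lam t : ℝ) ≤ Q₂ ∧ N / 2 < -(dis t : ℝ)) →
  (F.card : ℝ) ≤ C * N ^ ε * (Q₁ * Q₂ + Q₁ * N ^ (1 / 2 - c))

/-- TW: medium primes dividing the conductor and `Z Λ` -/
def TW_stmt (δ : ℝ) : Prop :=
  ∀ κ : ℝ, 0 < κ → ∃ c N₀ : ℝ, 0 < c ∧ ∀ N Y : ℝ, N₀ ≤ N → N ^ (0.39 : ℝ) ≤ Y →
  Y ≤ N ^ (1 / 2 - δ) →
  ∀ F : Finset Tpl, (∀ t ∈ F, Cen κ N Y (N ^ (1 / 2 + δ / 100)) t ∧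
    ∃ p : ℕ, p.Prime ∧ N ^ (δ / 10000) < p ∧ (p : ℝ) ≤ N ^ (1 / 2 + δ / 100) / Y ∧
      (p : ℤ) ∣ t.2.1 * t.2.2.1 ∧ (p ∣ t.1.1 * t.1.2 ∨ (p : ℤ) ∣ t.2.2.2)) →
  (F.card : ℝ) ≤ N ^ (-c) * (Y * N ^ (1 / 2 + δ / 100))

/-- TAS (helper94): the weighted asymptotic; `μ` is the volume of the central region -/
def TAS_stmt (δ : ℝ) : Prop :=
  ∃ μ : ℝ → ℝ, ∃ C : ℝ, (∀ κ : ℝ, 0 < κ → κ ≤ 1 / 100 →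
    |μ κ - Real.pi ^ 2 / 2 * (1 - 1 / √2)| ≤ C * κ) ∧
  ∀ κ : ℝ, 0 < κ → κ ≤ 1 / 100 → ∀ w : ℕ, 2 ≤ w → ∀ ε : ℝ, 0 < ε → ∃ N₀ : ℝ, ∀ N Y : ℝ, N₀ ≤ N →
  N ^ (0.39 : ℝ) ≤ Y → Y ≤ N ^ (1 / 2 - δ) →
  ∀ F : Finset Tpl, (∀ t, t ∈ F ↔ Cen κ N Y (N ^ (1 / 2 + δ / 100)) t) →
    |∑ t ∈ F, fw w t - Y * N ^ (1 / 2 + δ / 100) * (μ κ * (6 / Real.pi ^ 2) *
      ∏ p ∈ pr w, (1 - 1 / (p : ℝ) ^ 2))| ≤ ε * (Y * N ^ (1 / 2 + δ / 100))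

end Pool.Agent.T5
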